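import Pool.Agent.W565.CP.Upw

/-!
# Project CP: outward success probability of a hub (`St_OUT`)
-/

set_option autoImplicit false
open scoped BigOperators ENNReal

namespace Pool.Agent.W565.CP

open Pool.Agent.W845.CP

theorem s_out (HP : St_PATH) (HB : St_PB) (m k l : ℕ → ℕ) (hm : ∀ n, 200 ≤ m n)
    (hl : ∀ n, 1 ≤ l n) (lam : ℝ) (h1 : 1 / 20 ≤ lam) (h2 : lam ≤ 1 / 16) (n x : ℕ)
    (s : Finset Vx → ℝ)
    (hs : IsHit (rest (nbx m k l) (Wout m k l n x)) lam (Wout m k l n x) (Tgt m (Jout k n x)) s) :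
    oo (l n) lam / (10584 * 11 ^ k n) ≤ s {Vx.t n 0 x} := by
  have hT : ∀ z, ¬ Tgt m (Jout k n x) {z} := tgt_sing m _
  have hm0 : ∀ n, 0 < m n := fun n => lt_of_lt_of_le (by norm_num) (hm n)
  have hl0 : 0 < l n := hl n
  have hlp : l n - 1 < l n := by omega
  obtain ⟨hG, -, -, ho, -, -, -, -⟩ := HP lam (by linarith) h2 (l n) (hl n)
  have hleaf : ∀ y, y / 2 ^ k n = x → oo (l n) lam / 10584 ≤ s {Vx.t n (k n) y} := by
    intro y hy
    have hcl : cl m (n + 1) y ⊆ Wout m k l n x := by
      intro z hz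
      obtain ⟨i, hi, rfl⟩ := (mem_cl _ _ _ _).1 hz
      exact (wout_h _ _ _ _ _ _ _ _).2 ⟨rfl, hy, hi⟩
    have hh0 : Vx.h (n + 1) y 0 ∈ cl m (n + 1) y := (cl_h _ _ _ _ _ _).2 ⟨rfl, rfl, hm0 _⟩
    have e1 : (1 / 8 : ℝ) ≤ s {Vx.h (n + 1) y 0} := by
      refine clq (rest (nbx m k l) (Wout m k l n x)) lam h1 (Wout m k l n x)
        (fun x _ => Finset.inter_subset_right) _ s hs (cl m (n + 1) y)
        hcl (erase_sub m k l (n + 1) y _ hcl) ?_ ?_ _ ?_ ?_
      · rw [card_cl]
        exact le_trans (by norm_num) (hm _)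
      · intro A _ h4
        exact ⟨(n + 1, y), Finset.mem_image.2 ⟨y, (mem_kids _ _ _ _).2 hy, rfl⟩, h4⟩
      · rw [Finset.singleton_subset_iff]
        exact hcl hh0
      · exact ⟨_, Finset.mem_inter.2 ⟨Finset.mem_singleton_self _, hh0⟩⟩
    have hpl : Vx.p n (l n - 1) y ∈ Wout m k l n x := (wout_p _ _ _ _ _ _ _ _).2 ⟨rfl, hlp, hy⟩
    have hp0 : Vx.p n 0 y ∈ Wout m k l n x := (wout_p _ _ _ _ _ _ _ _).2 ⟨rfl, hl0, hy⟩
    have e2 := hop h1 hs hT (Vx.p n (l n - 1) y) (Vx.h (n + 1) y 0) hpl (hcl hh0)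
      (by
        rw [nbx_p, if_pos hlp, if_neg (by omega : ¬ (l n - 1 + 1 < l n))]
        simp)
    have hB := HB m k l (fun n => le_trans (by norm_num) (hm n)) hl lam (by linarith) h2 n y
    have e6 := along (by linarith) hs (O2 l lam n y) (Vx.p n (l n - 1) y) hpl
      (by
        unfold O2 pre
        simp only [Finset.notMem_empty, Finset.filter_false, Finset.image_empty]
        exact hG.empty)
      (fun A => ⟨(hB A).1.2.2.1, (hB A).1.2.2.2⟩)
      (fun A => ((hB A).2.2.2 (Wout m k l n x)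
        (fun j hj => (wout_p _ _ _ _ _ _ _ _).2 ⟨rfl, hj, hy⟩)).2)
      {Vx.p n 0 y} (by
        rw [Finset.singleton_subset_iff]
        exact hp0)
    have e7 : O2 l lam n y {Vx.p n 0 y} = oo (l n) lam := by
      unfold O2 oo pre
      congr 1
      ext j
      simp only [Finset.mem_image, Finset.mem_filter, Finset.mem_range, Finset.mem_singleton,
        Vx.p.injEq, true_and, and_true]
      constructor
      · rintro ⟨a, ⟨_, rfl⟩, h⟩
        omega
      · rintro rfl
        exact ⟨0, ⟨hl0, rfl⟩, by omega⟩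
    rw [e7] at e6
    have e4 := hop h1 hs hT (Vx.t n (k n) y) (Vx.p n 0 y)
      ((wout_t _ _ _ _ _ _ _ _).2 ⟨rfl, le_rfl, hy⟩) hp0
      (by
        rw [nbx_t, if_pos le_rfl, if_neg (lt_irrefl _)]
        simp)
    have e5 : (1 / 21 : ℝ) * (1 / 8) * oo (l n) lam ≤ s {Vx.p n (l n - 1) y} * oo (l n) lam :=
      mul_le_mul_of_nonneg_right (by linarith) ho.le
    linarith
  have htree : ∀ i, i ≤ k n → ∀ y, y / 2 ^ (k n - i) = x →
      (1 / 11 : ℝ) ^ i * (oo (l n) lam / 10584) ≤ s {Vx.t n (k n - i) y} := by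
    intro i
    induction i with
    | zero =>
      intro _ y hy
      rw [Nat.sub_zero] at hy ⊢
      have := hleaf y hy
      rw [pow_zero, one_mul]
      exact this
    | succ i ih =>
      intro hi y hy
      have hsub : k n - i = (k n - (i + 1)) + 1 := by omega
      have hd : ∀ y', y' = 2 * y ∨ y' = 2 * y + 1 → y' / 2 ^ (k n - i) = x := by
        intro y' hy'
        rw [hsub, pow_succ, mul_comm, ← Nat.div_div_eq_div_mul]
        have : y' / 2 = y := by omega
        rw [this, hy]
      have c1 := ih (by omega) (2 * y) (hd _ (Or.inl rfl))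
      have c2 := ih (by omega) (2 * y + 1) (hd _ (Or.inr rfl))
      have := hop2 h1 hs hT (Vx.t n (k n - (i + 1)) y) (Vx.t n (k n - i) (2 * y))
        (Vx.t n (k n - i) (2 * y + 1))
        ((wout_t _ _ _ _ _ _ _ _).2 ⟨rfl, by omega, hy⟩)
        ((wout_t _ _ _ _ _ _ _ _).2 ⟨rfl, by omega, hd _ (Or.inl rfl)⟩)
        ((wout_t _ _ _ _ _ _ _ _).2 ⟨rfl, by omega, hd _ (Or.inr rfl)⟩)
        (by
          intro h
          injection h with _ _ h3
          omega)
        (by
          rw [nbx_t, if_pos (by omega : k n - (i + 1) ≤ k n),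
            if_pos (by omega : k n - (i + 1) < k n), ← hsub]
          simp)
        (by
          rw [nbx_t, if_pos (by omega : k n - (i + 1) ≤ k n),
            if_pos (by omega : k n - (i + 1) < k n), ← hsub]
          simp)
        _ (by positivity) c1 c2
      rw [pow_succ]
      linarith
  have := htree (k n) le_rfl x (by rw [Nat.sub_self, pow_zero, Nat.div_one])
  rw [Nat.sub_self] at this
  refine le_trans (le_of_eq ?_) this
  rw [one_div_pow]
  field_simp

theorem out (HR : St_REGHIT) (HP : St_PATH) (HB : St_PB) (HS : St_SEQ) (HL : St_HLOW)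
    (HV : St_VD) : St_OUT := by
  intro m k l hm hk hl lam h1 h2 n x u hu
  have hm0 : ∀ n, 0 < m n := fun n => lt_of_lt_of_le (by norm_num) (hm n)
  have hl0 : 0 < l n := hl n
  have hlp : l n - 1 < l n := by omega
  have hJW : ∀ j ∈ Jout k n x, cl m j.1 j.2 ⊆ Wout m k l n x := by
    intro j hj
    unfold Jout at hj
    obtain ⟨y, hy, rfl⟩ := Finset.mem_image.1 hj
    intro z hz
    obtain ⟨i, hi, rfl⟩ := (mem_cl _ _ _ _).1 hz
    exact (wout_h _ _ _ _ _ _ _ _).2 ⟨rfl, (mem_kids _ _ _ _).1 hy, hi⟩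
  obtain ⟨s, hs, -⟩ := HR Vx (rest (nbx m k l) (Wout m k l n x)) lam (by linarith)
    (Wout m k l n x) (fun x _ => Finset.inter_subset_right) (Tgt m (Jout k n x))
    (fun A B hAB => tgt_mono m _ A B hAB) (tgt_empty m _)
  have hs0 := s_out HP HB m k l hm hl lam h1 h2 n x s hs
  obtain ⟨-, -, -, ho, -, -, -, -⟩ := HP lam (by linarith) h2 (l n) (hl n)
  have hs1 : (0 : ℝ) < oo (l n) lam / (10584 * 11 ^ k n) := by positivity
  obtain ⟨v1, v2, v3, v4⟩ := HV m k l hm hl lam h1 h2 (Wout m k l n x) (Jout k n x) hJW (by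
    intro n' y' i h
    rw [wout_h] at h
    obtain ⟨rfl, h2, h3⟩ := h
    exact ⟨Finset.mem_image.2 ⟨y', (mem_kids _ _ _ _).2 h2, rfl⟩, h3⟩)
  have hvK : Vx.h n x 0 ∈ cl m n x := (cl_h _ _ _ _ _ _).2 ⟨rfl, rfl, hm0 _⟩
  have hwW : Vx.t n 0 x ∈ Wout m k l n x :=
    (wout_t _ _ _ _ _ _ _ _).2 ⟨rfl, Nat.zero_le _, by simp⟩
  have hvw : Vx.h n x 0 ∈ nbx m k l (Vx.t n 0 x) := by
    rw [nbx_t, if_pos (Nat.zero_le _), if_pos rfl]
    simp
  have hR : rest (rest (nbx m k l) (cl m n x ∪ Wout m k l n x)) (Wout m k l n x) =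
      rest (nbx m k l) (Wout m k l n x) := rest_rest _ _ _
  -- neighbours of a vertex in `W` which are in `K`
  have hnK : ∀ w ∈ Wout m k l n x, ∀ z ∈ nbx m k l w, z ∈ cl m n x →
      w = Vx.t n 0 x ∧ z = Vx.h n x 0 := by
    intro w hw z hz hzK
    obtain ⟨i, hi, rfl⟩ := (mem_cl _ _ _ _).1 hzK
    cases w with
    | h n' y' i' =>
      obtain ⟨rfl, h2, h3⟩ := (wout_h _ _ _ _ _ _ _ _).1 hw
      rw [nbx_h, if_pos h3, Finset.mem_union] at hz
      rcases hz with hz | hz
      · obtain ⟨a, _, h⟩ := Finset.mem_image.1 hz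
        injection h with h1 h2 h3
        omega
      · split_ifs at hz
        · rw [Finset.mem_insert] at hz
          rcases hz with hz | hz
          · cases hz
          · simp [upv] at hz
        · simp at hz
    | t n' i' y' =>
      obtain ⟨rfl, h2, h3⟩ := (wout_t _ _ _ _ _ _ _ _).1 hw
      rw [nbx_t, if_pos h2, Finset.mem_insert] at hz
      rcases hz with hz | hz
      · split_ifs at hz with h4
        injection hz with h5 h6 h7
        subst h4 h6 h7
        exact ⟨rfl, rfl⟩
      · split_ifs at hz <;> simp at hz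
    | p n' j' y' =>
      obtain ⟨rfl, h2, h3⟩ := (wout_p _ _ _ _ _ _ _ _).1 hw
      rw [nbx_p, if_pos h2, Finset.mem_insert, Finset.mem_singleton] at hz
      rcases hz with hz | hz
      · split_ifs at hz
      · split_ifs at hz with h5
        injection hz with h6 h7 h8
        omega
  have hdis : Disjoint (cl m n x) (Wout m k l n x) := by
    rw [Finset.disjoint_left]
    intro z hz hz2
    obtain ⟨i, hi, rfl⟩ := (mem_cl _ _ _ _).1 hz
    have := ((wout_h _ _ _ _ _ _ _ _).1 hz2).1
    omega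
  -- neighbours of the vertices of `K`
  have hKnb : ∀ i, i < m n →
      ((Finset.range (m n)).erase i).image (Vx.h n x) =
        (cl m n x).erase (Vx.h n x i) := by
    intro i hi
    unfold cl
    refine Finset.image_erase ?_ _ _
    intro a b h
    simpa using h
  obtain ⟨c1, -⟩ := HL Vx (rest (nbx m k l) (cl m n x ∪ Wout m k l n x)) lam h1 h2
    (cl m n x) (Wout m k l n x) (Vx.h n x 0) (Vx.t n 0 x)
    (by rw [card_cl]; exact le_trans (by norm_num) (hm _)) hdis hvK hwW
    (by
      intro z hx hxv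
      obtain ⟨i, hi, rfl⟩ := (mem_cl _ _ _ _).1 hx
      have hi0 : i ≠ 0 := by
        rintro rfl
        exact hxv rfl
      unfold rest
      rw [nbx_h, if_pos hi, if_neg hi0, Finset.union_empty, hKnb i hi]
      refine Finset.inter_eq_left.2 ?_
      exact (Finset.erase_subset _ _).trans Finset.subset_union_left)
    (by
      unfold rest
      rw [nbx_h, if_pos (hm0 _), if_pos rfl, hKnb 0 (hm0 _)]
      ext z
      rw [Finset.mem_inter, Finset.mem_union, Finset.mem_union, Finset.mem_insert,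
        Finset.mem_insert]
      constructor
      · rintro ⟨h3 | (rfl | h3), h4⟩
        · exact Or.inr h3
        · exact Or.inl rfl
        · exfalso
          cases n with
          | zero => simp [upv] at h3
          | succ n =>
            simp only [upv, Finset.mem_singleton] at h3
            subst h3
            rcases h4 with h4 | h4
            · exact cl_p _ _ _ _ _ _ h4
            · have := ((wout_p _ _ _ _ _ _ _ _).1 h4).1
              omega
      · rintro (rfl | h3)
        · exact ⟨Or.inr (Or.inl rfl), Or.inr hwW⟩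
        · exact ⟨Or.inl h3, Or.inl (Finset.mem_of_mem_erase h3)⟩)
    (by
      intro w hw hne z hz
      unfold rest at hz
      rw [Finset.mem_inter, Finset.mem_union] at hz
      rcases hz.2 with h3 | h3
      · exact absurd (hnK w hw z hz.1 h3).1 hne
      · exact h3)
    (by
      intro z hz
      unfold rest at hz
      rw [Finset.mem_inter, Finset.mem_union] at hz
      rcases hz.2 with h3 | h3
      · rw [(hnK _ hwW z hz.1 h3).2]
        exact Finset.mem_insert_self _ _
      · exact Finset.mem_insert_of_mem h3)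
    (Finset.mem_inter.2 ⟨hvw, Finset.mem_union_left _ hvK⟩)
    (Tgt m (Jout k n x)) (fun A B hAB => tgt_mono m _ A B hAB)
    (fun A hA => tgt_inter m _ _ A hJW hA) (tgt_empty m _) s (by rw [hR]; exact hs)
    (lt_of_lt_of_le hs1 hs0) (Vf m (Jout k n x)) v1 (fun A _ => v2 A) (fun A _ => v3 A _ rfl)
    (by rw [hR]; exact v4) u hu
  rw [card_cl] at c1
  obtain ⟨-, -, -, -, hTT, -, -, -, -, -, -⟩ := HS.1 lam (by linarith) (m n)
    (le_trans (by norm_num) (hm _))
  intro A hA h4
  refine le_trans ?_ (c1 A hA h4)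
  have hlam : 0 < lam := by linarith
  have key : 20 * (m n : ℝ) / (lam ^ 2 * s {Vx.t n 0 x} * TT lam (m n)) ≤
      20 * (m n : ℝ) * (10584 * 11 ^ k n) /
        (lam ^ 2 * oo (l n) lam * TT lam (m n)) := by
    have e : 20 * (m n : ℝ) * (10584 * 11 ^ k n) /
        (lam ^ 2 * oo (l n) lam * TT lam (m n)) = 20 * (m n : ℝ) /
        (lam ^ 2 * (oo (l n) lam / (10584 * 11 ^ k n)) * TT lam (m n)) := by
      field_simp
    rw [e]
    refine div_le_div_of_nonneg_left (by positivity) (by positivity) ?_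
    gcongr
  linarith

end Pool.Agent.W565.CP
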