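import Pool.Agent.W845.CP.Base2

/-!
# Project CP: first and last stage (`St_START`), non-explosion (`St_NEX`)
-/

set_option autoImplicit false
open scoped BigOperators ENNReal

namespace Pool.Agent.W565.CP

open Pool.Agent.W845.CP

theorem nbx_h (m k l : ℕ → ℕ) (n y i : ℕ) : nbx m k l (Vx.h n y i) =
    if i < m n then
        ((Finset.range (m n)).erase i).image (Vx.h n y) ∪
          (if i = 0 then insert (Vx.t n 0 y) (upv l n y) else ∅)
      else ∅ := rfl

theorem nbx_t (m k l : ℕ → ℕ) (n i y : ℕ) : nbx m k l (Vx.t n i y) =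
    if i ≤ k n then
        insert (if i = 0 then Vx.h n y 0 else Vx.t n (i - 1) (y / 2))
          (if i < k n then {Vx.t n (i + 1) (2 * y), Vx.t n (i + 1) (2 * y + 1)} else {Vx.p n 0 y})
      else ∅ := rfl

theorem nbx_p (m k l : ℕ → ℕ) (n j y : ℕ) : nbx m k l (Vx.p n j y) =
    if j < l n then
        {(if j = 0 then Vx.t n (k n) y else Vx.p n (j - 1) y),
         (if j + 1 < l n then Vx.p n (j + 1) y else Vx.h (n + 1) y 0)}
      else ∅ := rfl

theorem mem_cl (m : ℕ → ℕ) (n x : ℕ) (v : Vx) :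
    v ∈ cl m n x ↔ ∃ i, i < m n ∧ Vx.h n x i = v := by
  unfold cl
  simp

theorem card_cl (m : ℕ → ℕ) (n x : ℕ) : (cl m n x).card = m n := by
  unfold cl
  rw [Finset.card_image_of_injective, Finset.card_range]
  intro a b h
  simpa using h

/-- inside a hub all the other vertices are neighbours -/
theorem erase_sub (m k l : ℕ → ℕ) (n y : ℕ) (R : Finset Vx) (hR : cl m n y ⊆ R) :
    ∀ x ∈ cl m n y, (cl m n y).erase x ⊆ rest (nbx m k l) R x := by
  intro x hx z hz
  rw [Finset.mem_erase] at hz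
  unfold rest
  rw [Finset.mem_inter]
  refine ⟨?_, hR hz.2⟩
  obtain ⟨i, hi, rfl⟩ := (mem_cl m n y x).1 hx
  obtain ⟨j, hj, rfl⟩ := (mem_cl m n y z).1 hz.2
  rw [nbx_h, if_pos hi]
  refine Finset.mem_union_left _ (Finset.mem_image.2 ⟨j, ?_, rfl⟩)
  rw [Finset.mem_erase, Finset.mem_range]
  refine ⟨?_, hj⟩
  rintro rfl
  exact hz.1 rfl

theorem start : St_START := by
  intro m k l hm hk hl lam h1 h2
  have hR : ∀ x ∈ cl m 0 0, rest (nbx m k l) (cl m 0 0) x ⊆ cl m 0 0 :=
    fun x _ => Finset.inter_subset_right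
  have h01 : Vx.h 0 0 1 ∈ cl m 0 0 :=
    (mem_cl m 0 0 _).2 ⟨1, lt_of_lt_of_le (by norm_num) (hm 0), rfl⟩
  refine ⟨?_, ?_⟩
  · intro u hu
    refine clq (rest (nbx m k l) (cl m 0 0)) lam h1 (cl m 0 0) hR _ u hu (cl m 0 0)
      (Finset.Subset.refl _) (erase_sub m k l 0 0 _ (Finset.Subset.refl _)) ?_ ?_ _ ?_ ?_
    · rw [card_cl]
      exact le_trans (by norm_num) (hm 0)
    · intro A _ h4
      exact ⟨(0, 0), Finset.mem_singleton_self _, h4⟩
    · exact Finset.singleton_subset_iff.2 h01
    · exact ⟨_, Finset.mem_inter.2 ⟨Finset.mem_singleton_self _, h01⟩⟩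
  · intro u hu A hA hne
    by_cases hin : Vx.h 0 0 1 ∈ A
    · rw [hu.one A hA hin]
      norm_num
    · obtain ⟨x, hx⟩ := hne
      have hxR : ({x} : Finset Vx) ⊆ cl m 0 0 := Finset.singleton_subset_iff.2 (hA hx)
      have hne1 : Vx.h 0 0 1 ≠ x := by
        rintro rfl
        exact hin hx
      have hm1 := hu.mono {x} A (Finset.singleton_subset_iff.2 hx) hA
      have hh := hu.harm {x} hxR (by
        rw [Finset.mem_singleton]
        exact hne1)
      have h3 := use_lower _ lam (by linarith) (cl m 0 0) hR u hu.nonneg hu.mono {x} hxR hh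
        (fun _ => {Vx.h 0 0 1}) (by
          intro z hz
          rw [Finset.mem_singleton] at hz
          subst hz
          refine Finset.Subset.trans ?_ (erase_sub m k l 0 0 _ (Finset.Subset.refl _) z (hA hx))
          rw [Finset.singleton_subset_iff, Finset.mem_erase]
          exact ⟨hne1, h01⟩)
      simp only [Finset.sum_singleton, Finset.card_singleton] at h3
      rw [hu.one (insert (Vx.h 0 0 1) {x}) (Finset.insert_subset h01 hxR)
        (Finset.mem_insert_self _ _)] at h3
      push_cast at h3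
      have hu0 := hu.nonneg {x} hxR
      nlinarith

/-! ### non-explosion -/

/-- the hub of a vertex -/
def hub : Vx → Finset (ℕ × ℕ)
  | .h n y _ => {(n, y)}
  | .t _ _ _ => ∅
  | .p _ _ _ => ∅

/-- weights of the connecting vertices -/
noncomputable def cw (m : ℕ → ℕ) : Vx → ℝ
  | .h _ _ _ => 0
  | .t n _ _ => (m (n + 1) : ℝ) ^ 2
  | .p n _ _ => (m (n + 1) : ℝ) ^ 2

/-- the Lyapunov function -/
noncomputable def hR (m : ℕ → ℕ) (A : Finset Vx) : ℝ :=
  ∑ q ∈ A.biUnion hub, (m q.1 : ℝ) ^ 2 + ∑ v ∈ A, cw m v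

/-- upper bound of the cost of one vertex -/
noncomputable def val (m : ℕ → ℕ) (v : Vx) : ℝ := ∑ q ∈ hub v, (m q.1 : ℝ) ^ 2 + cw m v

theorem cw_nonneg (m : ℕ → ℕ) (v : Vx) : 0 ≤ cw m v := by
  cases v <;> simp [cw]

theorem hR_mono (m : ℕ → ℕ) {A B : Finset Vx} (h : A ⊆ B) : hR m A ≤ hR m B := by
  unfold hR
  refine add_le_add ?_ ?_
  · exact Finset.sum_le_sum_of_subset_of_nonneg (Finset.biUnion_subset_biUnion_of_subset_left _ h)
      fun _ _ _ => by positivity
  · exact Finset.sum_le_sum_of_subset_of_nonneg h fun v _ _ => cw_nonneg m v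

theorem hR_nonneg (m : ℕ → ℕ) (A : Finset Vx) : 0 ≤ hR m A := by
  unfold hR
  refine add_nonneg (Finset.sum_nonneg fun _ _ => by positivity)
    (Finset.sum_nonneg fun v _ => cw_nonneg m v)

theorem hR_insert (m : ℕ → ℕ) (A : Finset Vx) (y : Vx) :
    hR m (insert y A) - hR m A ≤ val m y := by
  unfold hR val
  have h1 : ∑ q ∈ (insert y A).biUnion hub, (m q.1 : ℝ) ^ 2 ≤
      ∑ q ∈ hub y, (m q.1 : ℝ) ^ 2 + ∑ q ∈ A.biUnion hub, (m q.1 : ℝ) ^ 2 := by
    rw [Finset.biUnion_insert, ← Finset.sum_union_inter]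
    have : 0 ≤ ∑ q ∈ hub y ∩ A.biUnion hub, (m q.1 : ℝ) ^ 2 :=
      Finset.sum_nonneg fun _ _ => by positivity
    linarith
  have h2 : ∑ v ∈ insert y A, cw m v ≤ cw m y + ∑ v ∈ A, cw m v := by
    by_cases hy : y ∈ A
    · rw [Finset.insert_eq_self.2 hy]
      linarith [cw_nonneg m y]
    · rw [Finset.sum_insert hy]
  linarith

theorem hR_same (m : ℕ → ℕ) (A : Finset Vx) (n y i j : ℕ) (h : Vx.h n y i ∈ A) :
    hR m (insert (Vx.h n y j) A) - hR m A ≤ 0 := by
  unfold hR
  have h1 : (insert (Vx.h n y j) A).biUnion hub = A.biUnion hub := by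
    rw [Finset.biUnion_insert]
    refine Finset.union_eq_right.2 ?_
    intro q hq
    exact Finset.mem_biUnion.2 ⟨_, h, hq⟩
  have h2 : ∑ v ∈ insert (Vx.h n y j) A, cw m v = ∑ v ∈ A, cw m v := by
    by_cases hy : Vx.h n y j ∈ A
    · rw [Finset.insert_eq_self.2 hy]
    · rw [Finset.sum_insert hy]
      simp [cw]
  rw [h1, h2]
  simp

/-- double counting -/
theorem dcount (m : ℕ → ℕ) (A : Finset Vx) (c : Vx → ℝ) (F : ℕ × ℕ → Finset Vx) (M : ℝ)
    (hM : 0 ≤ M) (w : ℕ × ℕ → ℝ) (hw : ∀ q, 0 ≤ w q)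
    (h1 : ∀ x ∈ A, c x ≤ M * ∑ q ∈ A.biUnion hub, if x ∈ F q then w q else 0)
    (h2 : ∀ q, ((F q).card : ℝ) * w q ≤ (m q.1 : ℝ) ^ 2) :
    ∑ x ∈ A, c x ≤ M * ∑ q ∈ A.biUnion hub, (m q.1 : ℝ) ^ 2 := by
  refine (Finset.sum_le_sum h1).trans ?_
  rw [← Finset.mul_sum, Finset.sum_comm]
  refine mul_le_mul_of_nonneg_left (Finset.sum_le_sum fun q _ => ?_) hM
  refine le_trans ?_ (h2 q)
  rw [← Finset.sum_filter, Finset.sum_const, nsmul_eq_mul]
  refine mul_le_mul_of_nonneg_right ?_ (hw q)
  exact_mod_cast Finset.card_le_card fun x hx => (Finset.mem_filter.1 hx).2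

/-- bound of the increase caused by one vertex -/
noncomputable def bd (m : ℕ → ℕ) : Vx → ℝ
  | .h n _ i => if i = 0 then 5 * (m n : ℝ) ^ 2 else 0
  | .t n _ _ => 3 * (m (n + 1) : ℝ) ^ 2
  | .p n _ _ => 3 * (m (n + 1) : ℝ) ^ 2

/-- its hub part -/
noncomputable def bh (m : ℕ → ℕ) : Vx → ℝ
  | .h n _ i => if i = 0 then 5 * (m n : ℝ) ^ 2 else 0
  | .t _ _ _ => 0
  | .p _ _ _ => 0

/-- hub part of the rate -/
noncomputable def rh (m : ℕ → ℕ) (lam : ℝ) : Vx → ℝ
  | .h n _ _ => (1 + 2 * lam) * (m n : ℝ)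
  | .t _ _ _ => 0
  | .p _ _ _ => 0

theorem nb_sum (m k l : ℕ → ℕ) (hm : ∀ n, 1 ≤ m n ∧ m n ≤ m (n + 1) ∧ m (n + 1) ≤ 2 * m n)
    (A : Finset Vx) (x : Vx) (hx : x ∈ A) :
    ∑ y ∈ nbx m k l x, (hR m (insert y A) - hR m A) ≤ bd m x := by
  have hmm : ∀ n, (m n : ℝ) ^ 2 ≤ (m (n + 1) : ℝ) ^ 2 := fun n => by
    have : (m n : ℝ) ≤ m (n + 1) := by exact_mod_cast (hm n).2.1
    have h0 : (0 : ℝ) ≤ m n := by positivity
    nlinarith
  have hmm4 : ∀ n, (m (n + 1) : ℝ) ^ 2 ≤ 4 * (m n : ℝ) ^ 2 := fun n => by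
    have : (m (n + 1) : ℝ) ≤ 2 * m n := by exact_mod_cast (hm n).2.2
    have h0 : (0 : ℝ) ≤ m (n + 1) := by positivity
    nlinarith
  have hins : ∀ y, 0 ≤ hR m (insert y A) - hR m A := fun y =>
    sub_nonneg.2 (hR_mono m (Finset.subset_insert _ _))
  -- sums over small sets
  have hpt : ∀ (y : Vx) (S : Finset Vx), ∑ z ∈ insert y S, (hR m (insert z A) - hR m A) ≤
      val m y + ∑ z ∈ S, (hR m (insert z A) - hR m A) := by
    intro y S
    by_cases hy : y ∈ S
    · rw [Finset.insert_eq_self.2 hy]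
      have := (hins y).trans (hR_insert m A y)
      linarith
    · rw [Finset.sum_insert hy]
      linarith [hR_insert m A y]
  have hp1 : ∀ y : Vx, ∑ z ∈ ({y} : Finset Vx), (hR m (insert z A) - hR m A) ≤ val m y := by
    intro y
    rw [Finset.sum_singleton]
    exact hR_insert m A y
  cases x with
  | h n y i =>
    show ∑ z ∈ nbx m k l (Vx.h n y i), _ ≤ if i = 0 then 5 * (m n : ℝ) ^ 2 else 0
    rw [nbx_h]
    split_ifs with h1 h2
    · have hu : ∀ S T : Finset Vx, ∑ z ∈ S ∪ T, (hR m (insert z A) - hR m A) ≤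
          ∑ z ∈ S, (hR m (insert z A) - hR m A) + ∑ z ∈ T, (hR m (insert z A) - hR m A) := by
        intro S T
        rw [← Finset.sum_union_inter]
        have : 0 ≤ ∑ z ∈ S ∩ T, (hR m (insert z A) - hR m A) :=
          Finset.sum_nonneg fun z _ => hins z
        linarith
      refine (hu _ _).trans ?_
      have e1 : ∑ z ∈ ((Finset.range (m n)).erase i).image (Vx.h n y),
          (hR m (insert z A) - hR m A) ≤ 0 := by
        refine Finset.sum_nonpos fun z hz => ?_
        obtain ⟨j, _, rfl⟩ := Finset.mem_image.1 hz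
        exact hR_same m A n y i j hx
      have e2 : ∑ z ∈ insert (Vx.t n 0 y) (upv l n y), (hR m (insert z A) - hR m A) ≤
          5 * (m n : ℝ) ^ 2 := by
        refine (hpt _ _).trans ?_
        have v1 : val m (Vx.t n 0 y) = (m (n + 1) : ℝ) ^ 2 := by simp [val, hub, cw]
        rw [v1]
        cases n with
        | zero =>
          have := hmm4 0
          have h0 : (0 : ℝ) ≤ (m 0 : ℝ) ^ 2 := by positivity
          simp only [upv, Finset.sum_empty]
          linarith
        | succ n =>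
          have v2 : val m (Vx.p n (l n - 1) y) = (m (n + 1) : ℝ) ^ 2 := by simp [val, hub, cw]
          have := hmm4 (n + 1)
          have h3 := hp1 (Vx.p n (l n - 1) y)
          rw [v2] at h3
          simp only [upv]
          linarith
      linarith
    · have e1 : ∑ z ∈ ((Finset.range (m n)).erase i).image (Vx.h n y) ∪ ∅,
          (hR m (insert z A) - hR m A) ≤ 0 := by
        rw [Finset.union_empty]
        refine Finset.sum_nonpos fun z hz => ?_
        obtain ⟨j, _, rfl⟩ := Finset.mem_image.1 hz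
        exact hR_same m A n y i j hx
      exact e1
    · rw [Finset.sum_empty]
      positivity
    · rw [Finset.sum_empty]
  | t n i y =>
    show ∑ z ∈ nbx m k l (Vx.t n i y), _ ≤ 3 * (m (n + 1) : ℝ) ^ 2
    rw [nbx_t]
    have a0 := hmm n
    have v1 : ∀ i' y', val m (Vx.t n i' y') = (m (n + 1) : ℝ) ^ 2 := fun i' y' => by
      simp [val, hub, cw]
    have v2 : ∀ i' y', val m (Vx.p n i' y') = (m (n + 1) : ℝ) ^ 2 := fun i' y' => by
      simp [val, hub, cw]
    have v3 : ∀ i' y', val m (Vx.h n y' i') = (m n : ℝ) ^ 2 := fun i' y' => by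
      simp [val, hub, cw]
    have hpos : (0 : ℝ) ≤ (m (n + 1) : ℝ) ^ 2 := by positivity
    by_cases h1 : i ≤ k n
    · rw [if_pos h1]
      refine (hpt _ _).trans ?_
      have e1 : val m (if i = 0 then Vx.h n y 0 else Vx.t n (i - 1) (y / 2)) ≤
          (m (n + 1) : ℝ) ^ 2 := by
        split_ifs
        · rw [v3]; exact a0
        · rw [v1]
      have e2 : ∑ z ∈ (if i < k n then ({Vx.t n (i + 1) (2 * y), Vx.t n (i + 1) (2 * y + 1)} :
          Finset Vx) else {Vx.p n 0 y}), (hR m (insert z A) - hR m A) ≤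
          2 * (m (n + 1) : ℝ) ^ 2 := by
        split_ifs
        · refine (hpt _ _).trans ?_
          have := hp1 (Vx.t n (i + 1) (2 * y + 1))
          rw [v1] at this ⊢
          linarith
        · have := hp1 (Vx.p n 0 y)
          rw [v2] at this
          linarith
      linarith
    · rw [if_neg h1, Finset.sum_empty]
      positivity
  | p n j y =>
    show ∑ z ∈ nbx m k l (Vx.p n j y), _ ≤ 3 * (m (n + 1) : ℝ) ^ 2
    rw [nbx_p]
    have v1 : ∀ i' y', val m (Vx.t n i' y') = (m (n + 1) : ℝ) ^ 2 := fun i' y' => by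
      simp [val, hub, cw]
    have v2 : ∀ i' y', val m (Vx.p n i' y') = (m (n + 1) : ℝ) ^ 2 := fun i' y' => by
      simp [val, hub, cw]
    have v3 : ∀ i' y', val m (Vx.h (n + 1) y' i') = (m (n + 1) : ℝ) ^ 2 := fun i' y' => by
      simp [val, hub, cw]
    have hpos : (0 : ℝ) ≤ (m (n + 1) : ℝ) ^ 2 := by positivity
    by_cases h1 : j < l n
    · rw [if_pos h1]
      refine (hpt _ _).trans ?_
      have e1 : val m (if j = 0 then Vx.t n (k n) y else Vx.p n (j - 1) y) ≤
          (m (n + 1) : ℝ) ^ 2 := by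
        split_ifs
        · rw [v1]
        · rw [v2]
      have e2 : ∑ z ∈ ({(if j + 1 < l n then Vx.p n (j + 1) y else Vx.h (n + 1) y 0)} :
          Finset Vx), (hR m (insert z A) - hR m A) ≤ (m (n + 1) : ℝ) ^ 2 := by
        refine (hp1 _).trans ?_
        split_ifs
        · rw [v2]
        · rw [v3]
      linarith
    · rw [if_neg h1, Finset.sum_empty]
      positivity

theorem card_nbx (m k l : ℕ → ℕ) (hm : ∀ n, 1 ≤ m n) (x : Vx) :
    (nbx m k l x).card ≤ (match x with
        | .h n _ _ => 2 * m n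
        | .t _ _ _ => 3
        | .p _ _ _ => 3) := by
  cases x with
  | h n y i =>
    show (nbx m k l (Vx.h n y i)).card ≤ 2 * m n
    rw [nbx_h]
    by_cases h1 : i < m n
    · rw [if_pos h1]
      refine (Finset.card_union_le _ _).trans ?_
      have e1 : (((Finset.range (m n)).erase i).image (Vx.h n y)).card ≤ m n - 1 := by
        refine Finset.card_image_le.trans ?_
        rw [Finset.card_erase_of_mem (Finset.mem_range.2 h1), Finset.card_range]
      have e2 : (if i = 0 then insert (Vx.t n 0 y) (upv l n y) else ∅ : Finset Vx).card ≤ 2 := by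
        split_ifs
        · refine (Finset.card_insert_le _ _).trans ?_
          cases n with
          | zero => simp [upv]
          | succ n => simp [upv]
        · simp
      by_cases h2 : m n = 1
      · have hi : i = 0 := by omega
        have e3 : (if i = 0 then insert (Vx.t n 0 y) (upv l n y) else ∅ : Finset Vx).card ≤ 2 := e2
        omega
      · have := hm n
        omega
    · rw [if_neg h1]
      simp
  | t n i y =>
    show (nbx m k l (Vx.t n i y)).card ≤ 3
    rw [nbx_t]
    split_ifs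
    all_goals first
      | exact (Finset.card_insert_le _ _).trans (by
          have := Finset.card_le_two (a := Vx.t n (i + 1) (2 * y)) (b := Vx.t n (i + 1) (2 * y + 1))
          omega)
      | exact (Finset.card_insert_le _ _).trans (by simp)
      | simp
  | p n j y =>
    show (nbx m k l (Vx.p n j y)).card ≤ 3
    rw [nbx_p]
    split_ifs
    all_goals first
      | exact (Finset.card_le_two).trans (by norm_num)
      | simp

theorem nex : St_NEX := by
  intro m k l hm hl lam hlam
  refine ⟨fun A => ENNReal.ofReal (hR m A), ENNReal.ofReal (5 * lam), ENNReal.ofReal (1 + 3 * lam),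
    ENNReal.ofReal_ne_top, ENNReal.ofReal_ne_top, fun A => ENNReal.ofReal_ne_top, ?_⟩
  intro A hA
  have hm1 : ∀ n, (1 : ℝ) ≤ m n := fun n => by exact_mod_cast (hm n).1
  refine ⟨?_, ?_⟩
  · refine up_le_of_gen' _ lam hlam.le _ (hR_nonneg m) A (5 * lam) (by positivity) ?_
    unfold gen
    have h1 : ∑ x ∈ A, (hR m (A.erase x) - hR m A) ≤ 0 :=
      Finset.sum_nonpos fun x _ => sub_nonpos.2 (hR_mono m (Finset.erase_subset _ _))
    have h2 : ∑ x ∈ A, ∑ y ∈ nbx m k l x, (hR m (insert y A) - hR m A) ≤ 5 * hR m A := by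
      refine (Finset.sum_le_sum fun x hx => nb_sum m k l hm A x hx).trans ?_
      have hs : ∀ x : Vx, bd m x = bh m x + 3 * cw m x := by
        intro x
        cases x <;> simp [cw, bd, bh]
      simp only [hs]
      rw [Finset.sum_add_distrib, ← Finset.mul_sum]
      have h3 := dcount m A (bh m) (fun q => {Vx.h q.1 q.2 0}) 5 (by norm_num)
        (fun q => (m q.1 : ℝ) ^ 2) (fun q => by positivity) ?_ (fun q => by simp)
      · have h4 : 0 ≤ ∑ v ∈ A, cw m v := Finset.sum_nonneg fun v _ => cw_nonneg m v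
        unfold hR
        linarith
      · intro x hx
        have hnn : 0 ≤ 5 * ∑ q ∈ A.biUnion hub,
            if x ∈ ({Vx.h q.1 q.2 0} : Finset Vx) then (m q.1 : ℝ) ^ 2 else 0 := by
          refine mul_nonneg (by norm_num) (Finset.sum_nonneg fun q _ => ?_)
          split_ifs <;> positivity
        cases x with
        | h n y i =>
          beta_reduce
          show (if i = 0 then 5 * (m n : ℝ) ^ 2 else 0) ≤ _
          split_ifs with hi
          · subst hi
            refine mul_le_mul_of_nonneg_left ?_ (by norm_num)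
            have hq : (n, y) ∈ A.biUnion hub :=
              Finset.mem_biUnion.2 ⟨_, hx, by simp [hub]⟩
            refine le_trans (le_of_eq ?_) (Finset.single_le_sum (f := fun q : ℕ × ℕ =>
              if Vx.h n y 0 ∈ ({Vx.h q.1 q.2 0} : Finset Vx) then (m q.1 : ℝ) ^ 2 else 0)
              (fun q _ => ?_) hq)
            · simp
            · beta_reduce
              split_ifs <;> positivity
          · exact hnn
        | t n i y => exact hnn
        | p n j y => exact hnn
    have h3 := mul_le_mul_of_nonneg_left h2 hlam.le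
    nlinarith
  · have hrate : rateR (nbx m k l) lam A ≤ (1 + 3 * lam) * hR m A := by
      have e : rateR (nbx m k l) lam A = ∑ x ∈ A, (1 + lam * ((nbx m k l x \ A).card : ℝ)) := by
        unfold rateR
        rw [Finset.sum_add_distrib, ← Finset.mul_sum]
        simp
      rw [e]
      have hb : ∀ x ∈ A, 1 + lam * ((nbx m k l x \ A).card : ℝ) ≤
          rh m lam x + (1 + 3 * lam) * cw m x := by
        intro x _
        have hc : (((nbx m k l x \ A).card : ℕ) : ℝ) ≤ ((nbx m k l x).card : ℝ) := by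
          exact_mod_cast Finset.card_le_card Finset.sdiff_subset
        have hc2 := card_nbx m k l (fun n => (hm n).1) x
        cases x with
        | h n y i =>
          have hc3 : ((nbx m k l (Vx.h n y i)).card : ℝ) ≤ 2 * m n := by exact_mod_cast hc2
          show _ ≤ (1 + 2 * lam) * (m n : ℝ) + (1 + 3 * lam) * 0
          have := mul_le_mul_of_nonneg_left (hc.trans hc3) hlam.le
          nlinarith [hm1 n]
        | t n i y =>
          have hc3 : ((nbx m k l (Vx.t n i y)).card : ℝ) ≤ 3 := by exact_mod_cast hc2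
          show _ ≤ 0 + (1 + 3 * lam) * (m (n + 1) : ℝ) ^ 2
          have := mul_le_mul_of_nonneg_left (hc.trans hc3) hlam.le
          have h5 : (1 : ℝ) ≤ (m (n + 1) : ℝ) ^ 2 := one_le_pow₀ (hm1 _)
          nlinarith
        | p n i y =>
          have hc3 : ((nbx m k l (Vx.p n i y)).card : ℝ) ≤ 3 := by exact_mod_cast hc2
          show _ ≤ 0 + (1 + 3 * lam) * (m (n + 1) : ℝ) ^ 2
          have := mul_le_mul_of_nonneg_left (hc.trans hc3) hlam.le
          have h5 : (1 : ℝ) ≤ (m (n + 1) : ℝ) ^ 2 := one_le_pow₀ (hm1 _)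
          nlinarith
      refine (Finset.sum_le_sum hb).trans ?_
      rw [Finset.sum_add_distrib, ← Finset.mul_sum]
      have h3 := dcount m A (rh m lam) (fun q => cl m q.1 q.2) (1 + 2 * lam) (by positivity)
        (fun q => (m q.1 : ℝ)) (fun q => by positivity) ?_ (fun q => by
          rw [card_cl, sq])
      · have h4 : 0 ≤ ∑ q ∈ A.biUnion hub, (m q.1 : ℝ) ^ 2 :=
          Finset.sum_nonneg fun _ _ => by positivity
        unfold hR
        have h5 : (1 + 2 * lam) * ∑ q ∈ A.biUnion hub, (m q.1 : ℝ) ^ 2 ≤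
            (1 + 3 * lam) * ∑ q ∈ A.biUnion hub, (m q.1 : ℝ) ^ 2 :=
          mul_le_mul_of_nonneg_right (by linarith) h4
        rw [mul_add]
        linarith
      · intro x hx
        have hnn : 0 ≤ (1 + 2 * lam) * ∑ q ∈ A.biUnion hub,
            if x ∈ cl m q.1 q.2 then (m q.1 : ℝ) else 0 := by
          refine mul_nonneg (by positivity) (Finset.sum_nonneg fun q _ => ?_)
          split_ifs <;> positivity
        cases x with
        | h n y i =>
          show (1 + 2 * lam) * (m n : ℝ) ≤ _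
          refine mul_le_mul_of_nonneg_left ?_ (by positivity)
          have hq : (n, y) ∈ A.biUnion hub :=
            Finset.mem_biUnion.2 ⟨_, hx, by simp [hub]⟩
          refine le_trans (le_of_eq ?_) (Finset.single_le_sum (f := fun q : ℕ × ℕ =>
            if Vx.h n y i ∈ cl m q.1 q.2 then (m q.1 : ℝ) else 0)
            (fun q _ => ?_) hq)
          · beta_reduce
            rw [if_pos]
            exact (mem_cl m n y _).2 ⟨i, hA _ hx, rfl⟩
          · beta_reduce
            split_ifs <;> positivity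
        | t n i y => exact hnn
        | p n j y => exact hnn
    rw [rate_ofReal _ lam hlam.le]
    calc ENNReal.ofReal (rateR (nbx m k l) lam A)
        ≤ ENNReal.ofReal ((1 + 3 * lam) * hR m A) := ENNReal.ofReal_le_ofReal hrate
      _ = ENNReal.ofReal (1 + 3 * lam) * ENNReal.ofReal (hR m A) :=
          ENNReal.ofReal_mul (by positivity)
      _ ≤ ENNReal.ofReal (1 + 3 * lam) * (ENNReal.ofReal (hR m A) + 1) := by
          gcongr
          exact le_self_add

end Pool.Agent.W565.CP
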