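import Pool.Agent.W565.CP.Start

/-!
# Project CP: success probabilities of the hubs (`St_UPW`, `St_OUT`)
-/

set_option autoImplicit false
open scoped BigOperators ENNReal

namespace Pool.Agent.W565.CP

open Pool.Agent.W845.CP

/-! ### membership -/

theorem cl_h (m : ℕ → ℕ) (n x n' y' i : ℕ) :
    Vx.h n' y' i ∈ cl m n x ↔ n' = n ∧ y' = x ∧ i < m n := by
  rw [mem_cl]
  constructor
  · rintro ⟨j, hj, h⟩
    injection h with h1 h2 h3
    subst h1 h2 h3
    exact ⟨rfl, rfl, hj⟩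
  · rintro ⟨rfl, rfl, h⟩
    exact ⟨i, h, rfl⟩

theorem cl_t (m : ℕ → ℕ) (n x n' i y' : ℕ) : Vx.t n' i y' ∉ cl m n x := by
  rw [mem_cl]
  rintro ⟨j, _, h⟩
  cases h

theorem cl_p (m : ℕ → ℕ) (n x n' i y' : ℕ) : Vx.p n' i y' ∉ cl m n x := by
  rw [mem_cl]
  rintro ⟨j, _, h⟩
  cases h

theorem wup_p (m k l : ℕ → ℕ) (n y n' j y' : ℕ) :
    Vx.p n' j y' ∈ Wup m k l n y ↔ n' = n ∧ j < l n ∧ y' = y := by
  unfold Wup
  rw [Finset.mem_union, Finset.mem_union, Finset.mem_image, Finset.mem_image]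
  constructor
  · rintro ((⟨a, ha, h⟩ | ⟨a, ha, h⟩) | h)
    · injection h with h1 h2 h3
      subst h1 h2 h3
      exact ⟨rfl, Finset.mem_range.1 ha, rfl⟩
    · cases h
    · exact absurd h (cl_p _ _ _ _ _ _)
  · rintro ⟨rfl, h, rfl⟩
    exact Or.inl (Or.inl ⟨j, Finset.mem_range.2 h, rfl⟩)

theorem wup_t (m k l : ℕ → ℕ) (n y n' i y' : ℕ) :
    Vx.t n' i y' ∈ Wup m k l n y ↔ n' = n ∧ i ≤ k n ∧ y' = y / 2 ^ (k n - i) := by
  unfold Wup
  rw [Finset.mem_union, Finset.mem_union, Finset.mem_image, Finset.mem_image]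
  constructor
  · rintro ((⟨a, ha, h⟩ | ⟨a, ha, h⟩) | h)
    · cases h
    · injection h with h1 h2 h3
      subst h1 h2 h3
      exact ⟨rfl, Nat.le_of_lt_succ (Finset.mem_range.1 ha), rfl⟩
    · exact absurd h (cl_t _ _ _ _ _ _)
  · rintro ⟨rfl, h, rfl⟩
    exact Or.inl (Or.inr ⟨i, Finset.mem_range.2 (Nat.lt_succ_of_le h), rfl⟩)

theorem wup_h (m k l : ℕ → ℕ) (n y n' y' i : ℕ) :
    Vx.h n' y' i ∈ Wup m k l n y ↔ n' = n ∧ y' = y / 2 ^ k n ∧ i < m n := by
  unfold Wup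
  rw [Finset.mem_union, Finset.mem_union, Finset.mem_image, Finset.mem_image, cl_h]
  constructor
  · rintro ((⟨a, ha, h⟩ | ⟨a, ha, h⟩) | h)
    · cases h
    · cases h
    · exact h
  · intro h
    exact Or.inr h

theorem mem_kids (k : ℕ → ℕ) (n x y : ℕ) : y ∈ kids k n x ↔ y / 2 ^ k n = x := by
  unfold kids
  rw [Finset.mem_Ico]
  have hp : 0 < 2 ^ k n := by positivity
  constructor
  · rintro ⟨h1, h2⟩
    exact le_antisymm (Nat.le_of_lt_succ ((Nat.div_lt_iff_lt_mul hp).2 h2))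
      ((Nat.le_div_iff_mul_le hp).2 h1)
  · rintro rfl
    exact ⟨Nat.div_mul_le_self _ _, (Nat.div_lt_iff_lt_mul hp).1 (Nat.lt_succ_self _)⟩

theorem mem_Ico_div (x i y : ℕ) : y ∈ Finset.Ico (x * 2 ^ i) ((x + 1) * 2 ^ i) ↔ y / 2 ^ i = x :=
  mem_kids (fun _ => i) 0 x y

theorem wout_p (m k l : ℕ → ℕ) (n x n' j y' : ℕ) :
    Vx.p n' j y' ∈ Wout m k l n x ↔ n' = n ∧ j < l n ∧ y' / 2 ^ k n = x := by
  unfold Wout
  rw [Finset.mem_union, Finset.mem_union, Finset.mem_biUnion, Finset.mem_biUnion,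
    Finset.mem_biUnion]
  constructor
  · rintro ((⟨a, ha, h⟩ | ⟨a, ha, h⟩) | ⟨a, ha, h⟩)
    · obtain ⟨b, hb, h⟩ := Finset.mem_image.1 h
      cases h
    · obtain ⟨b, hb, h⟩ := Finset.mem_image.1 h
      injection h with h1 h2 h3
      subst h1 h2 h3
      exact ⟨rfl, Finset.mem_range.1 hb, (mem_kids _ _ _ _).1 ha⟩
    · exact absurd h (cl_p _ _ _ _ _ _)
  · rintro ⟨rfl, h, h2⟩
    exact Or.inl (Or.inr ⟨y', (mem_kids _ _ _ _).2 h2,
      Finset.mem_image.2 ⟨j, Finset.mem_range.2 h, rfl⟩⟩)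

theorem wout_t (m k l : ℕ → ℕ) (n x n' i y' : ℕ) :
    Vx.t n' i y' ∈ Wout m k l n x ↔ n' = n ∧ i ≤ k n ∧ y' / 2 ^ i = x := by
  unfold Wout
  rw [Finset.mem_union, Finset.mem_union, Finset.mem_biUnion, Finset.mem_biUnion,
    Finset.mem_biUnion]
  constructor
  · rintro ((⟨a, ha, h⟩ | ⟨a, ha, h⟩) | ⟨a, ha, h⟩)
    · obtain ⟨b, hb, h⟩ := Finset.mem_image.1 h
      injection h with h1 h2 h3
      subst h1 h2 h3
      exact ⟨rfl, Nat.le_of_lt_succ (Finset.mem_range.1 ha), (mem_Ico_div _ _ _).1 hb⟩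
    · obtain ⟨b, hb, h⟩ := Finset.mem_image.1 h
      cases h
    · exact absurd h (cl_t _ _ _ _ _ _)
  · rintro ⟨rfl, h, h2⟩
    exact Or.inl (Or.inl ⟨i, Finset.mem_range.2 (Nat.lt_succ_of_le h),
      Finset.mem_image.2 ⟨y', (mem_Ico_div _ _ _).2 h2, rfl⟩⟩)

theorem wout_h (m k l : ℕ → ℕ) (n x n' y' i : ℕ) :
    Vx.h n' y' i ∈ Wout m k l n x ↔ n' = n + 1 ∧ y' / 2 ^ k n = x ∧ i < m (n + 1) := by
  unfold Wout
  rw [Finset.mem_union, Finset.mem_union, Finset.mem_biUnion, Finset.mem_biUnion,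
    Finset.mem_biUnion]
  constructor
  · rintro ((⟨a, ha, h⟩ | ⟨a, ha, h⟩) | ⟨a, ha, h⟩)
    · obtain ⟨b, hb, h⟩ := Finset.mem_image.1 h
      cases h
    · obtain ⟨b, hb, h⟩ := Finset.mem_image.1 h
      cases h
    · obtain ⟨h1, h2, h3⟩ := (cl_h _ _ _ _ _ _).1 h
      subst h1 h2
      exact ⟨rfl, (mem_kids _ _ _ _).1 ha, h3⟩
  · rintro ⟨rfl, h, h2⟩
    exact Or.inr ⟨y', (mem_kids _ _ _ _).2 h, (cl_h _ _ _ _ _ _).2 ⟨rfl, rfl, h2⟩⟩

/-! ### general steps -/

theorem rest_rest (nb : Vx → Finset Vx) (K W : Finset Vx) :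
    rest (rest nb (K ∪ W)) W = rest nb W := by
  funext x
  unfold rest
  rw [Finset.inter_assoc, Finset.inter_eq_right.2 Finset.subset_union_right]

theorem tgt_mono (m : ℕ → ℕ) (J : Finset (ℕ × ℕ)) (A B : Finset Vx) (h : A ⊆ B)
    (hA : Tgt m J A) : Tgt m J B := by
  obtain ⟨j, hj, h4⟩ := hA
  exact ⟨j, hj, h4.trans (Finset.card_le_card (Finset.inter_subset_inter_right h))⟩

theorem tgt_empty (m : ℕ → ℕ) (J : Finset (ℕ × ℕ)) : ¬ Tgt m J ∅ := by
  rintro ⟨j, _, h4⟩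
  simp at h4

theorem tgt_sing (m : ℕ → ℕ) (J : Finset (ℕ × ℕ)) (x : Vx) : ¬ Tgt m J {x} := by
  rintro ⟨j, _, h4⟩
  have := Finset.card_le_card (Finset.inter_subset_left (s₁ := {x}) (s₂ := cl m j.1 j.2))
  rw [Finset.card_singleton] at this
  omega

theorem tgt_inter (m : ℕ → ℕ) (J : Finset (ℕ × ℕ)) (W A : Finset Vx)
    (hJ : ∀ j ∈ J, cl m j.1 j.2 ⊆ W) (h : Tgt m J A) : Tgt m J (A ∩ W) := by
  obtain ⟨j, hj, h4⟩ := h
  refine ⟨j, hj, h4.trans (Finset.card_le_card ?_)⟩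
  intro z hz
  rw [Finset.mem_inter] at hz
  exact Finset.mem_inter.2 ⟨Finset.mem_inter.2 ⟨hz.1, hJ j hj hz.2⟩, hz.2⟩

/-- one hop -/
theorem hop {nb : Vx → Finset Vx} {lam : ℝ} (h1 : 1 / 20 ≤ lam) {W : Finset Vx}
    {T : Finset Vx → Prop} {s : Finset Vx → ℝ} (hs : IsHit (rest nb W) lam W T s)
    (hT : ∀ x, ¬ T {x}) (x z : Vx) (hx : x ∈ W) (hz : z ∈ W) (hxz : z ∈ nb x) :
    (1 / 21 : ℝ) * s {z} ≤ s {x} := by
  have hR : ∀ x ∈ W, rest nb W x ⊆ W := fun x _ => Finset.inter_subset_right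
  have hxW : ({x} : Finset Vx) ⊆ W := Finset.singleton_subset_iff.2 hx
  have hzW : ({z} : Finset Vx) ⊆ W := Finset.singleton_subset_iff.2 hz
  have hh := hs.harm {x} hxW (hT x)
  have h3 := use_lower _ lam (by linarith) W hR s hs.nonneg hs.mono {x} hxW hh
    (fun _ => {z}) (by
      intro a ha
      rw [Finset.mem_singleton] at ha
      subst ha
      rw [Finset.singleton_subset_iff]
      exact Finset.mem_inter.2 ⟨hxz, hz⟩)
  simp only [Finset.sum_singleton, Finset.card_singleton] at h3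
  push_cast at h3
  have h4 := hs.mono {z} (insert z {x}) (by simp) (Finset.insert_subset hz hxW)
  have h5 := hs.nonneg {x} hxW
  have h6 := hs.nonneg {z} hzW
  nlinarith

/-- two possible hops -/
theorem hop2 {nb : Vx → Finset Vx} {lam : ℝ} (h1 : 1 / 20 ≤ lam) {W : Finset Vx}
    {T : Finset Vx → Prop} {s : Finset Vx → ℝ} (hs : IsHit (rest nb W) lam W T s)
    (hT : ∀ x, ¬ T {x}) (x z z' : Vx) (hx : x ∈ W) (hz : z ∈ W) (hz' : z' ∈ W) (hne : z ≠ z')
    (hxz : z ∈ nb x) (hxz' : z' ∈ nb x) (c : ℝ) (hc : 0 ≤ c) (hcz : c ≤ s {z}) (hcz' : c ≤ s {z'}) :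
    (1 / 11 : ℝ) * c ≤ s {x} := by
  have hR : ∀ x ∈ W, rest nb W x ⊆ W := fun x _ => Finset.inter_subset_right
  have hxW : ({x} : Finset Vx) ⊆ W := Finset.singleton_subset_iff.2 hx
  have hh := hs.harm {x} hxW (hT x)
  have h3 := use_lower _ lam (by linarith) W hR s hs.nonneg hs.mono {x} hxW hh
    (fun _ => {z, z'}) (by
      intro a ha
      rw [Finset.mem_singleton] at ha
      subst ha
      intro b hb
      rw [Finset.mem_insert, Finset.mem_singleton] at hb
      rcases hb with rfl | rfl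
      · exact Finset.mem_inter.2 ⟨hxz, hz⟩
      · exact Finset.mem_inter.2 ⟨hxz', hz'⟩)
  simp only [Finset.sum_singleton, Finset.card_singleton, Finset.sum_pair hne,
    Finset.card_pair hne] at h3
  push_cast at h3
  have h4 := hs.mono {z} (insert z {x}) (by simp) (Finset.insert_subset hz hxW)
  have h4' := hs.mono {z'} (insert z' {x}) (by simp) (Finset.insert_subset hz' hxW)
  have h5 := hs.nonneg {x} hxW
  nlinarith

/-- along the path -/
theorem along {nb : Vx → Finset Vx} {lam : ℝ} (h1 : 0 ≤ lam) {W : Finset Vx}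
    {T : Finset Vx → Prop} {s : Finset Vx → ℝ} (hs : IsHit (rest nb W) lam W T s)
    (O : Finset Vx → ℝ) (z : Vx) (hz : z ∈ W) (hO0 : O ∅ = 0) (hO : ∀ A, 0 ≤ O A ∧ O A ≤ 15 / 7)
    (hg : ∀ A, -(if z ∈ A then 1 else 0) ≤ gen (rest nb W) lam O A) (A : Finset Vx)
    (hA : A ⊆ W) : s {z} * O A / 3 ≤ s A := by
  have hzW : ({z} : Finset Vx) ⊆ W := Finset.singleton_subset_iff.2 hz
  have hR : ∀ x ∈ W, rest nb W x ⊆ W := fun x _ => Finset.inter_subset_right
  have h2 := hs.nonneg {z} hzW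
  have h3 := hs.le_one {z} hzW
  have := mp Vx (rest nb W) lam h1 W hR (fun B => 3 * s B - s {z} * O B) (by
    rw [hs.empty, hO0]; simp) (by
    intro B hB _
    have hOB := hO B
    by_cases hT : T B
    · left
      rw [hs.one B hB hT]
      nlinarith
    · by_cases hzB : z ∈ B
      · left
        have := hs.mono {z} B (Finset.singleton_subset_iff.2 hzB) hB
        nlinarith
      · right
        rw [gen_sub, gen_smul, gen_smul, hs.harm B hB hT]
        have := hg B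
        rw [if_neg hzB] at this
        nlinarith) A hA
  beta_reduce at this
  linarith

/-! ### upwards -/

theorem s_up (HP : St_PATH) (HB : St_PB) (m k l : ℕ → ℕ) (hm : ∀ n, 200 ≤ m n)
    (hl : ∀ n, 1 ≤ l n) (lam : ℝ) (h1 : 1 / 20 ≤ lam) (h2 : lam ≤ 1 / 16) (n y : ℕ)
    (s : Finset Vx → ℝ)
    (hs : IsHit (rest (nbx m k l) (Wup m k l n y)) lam (Wup m k l n y) (Tgt m (Jup k n y)) s) :
    oo (l n) lam / (24 * 21 ^ (k n + 2)) ≤ s {Vx.p n (l n - 1) y} := by
  have hT : ∀ x, ¬ Tgt m (Jup k n y) {x} := tgt_sing m _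
  have hcl : cl m n (y / 2 ^ k n) ⊆ Wup m k l n y := by
    intro z hz
    exact Finset.mem_union_right _ hz
  have e1 : (1 / 8 : ℝ) ≤ s {Vx.h n (y / 2 ^ k n) 0} := by
    refine clq (rest (nbx m k l) (Wup m k l n y)) lam h1 (Wup m k l n y)
      (fun x _ => Finset.inter_subset_right) _ s hs (cl m n (y / 2 ^ k n))
      hcl (erase_sub m k l n (y / 2 ^ k n) _ hcl) ?_ ?_ _ ?_ ?_
    · rw [card_cl]
      exact le_trans (by norm_num) (hm n)
    · intro A _ h4
      exact ⟨(n, y / 2 ^ k n), Finset.mem_singleton_self _, h4⟩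
    · rw [Finset.singleton_subset_iff, wup_h]
      exact ⟨rfl, rfl, lt_of_lt_of_le (by norm_num) (hm n)⟩
    · refine ⟨_, Finset.mem_inter.2 ⟨Finset.mem_singleton_self _, ?_⟩⟩
      rw [cl_h]
      exact ⟨rfl, rfl, lt_of_lt_of_le (by norm_num) (hm n)⟩
  have e2 : ∀ i, i ≤ k n → (1 / 21 : ℝ) ^ (i + 1) * (1 / 8) ≤ s {Vx.t n i (y / 2 ^ (k n - i))} := by
    intro i
    induction i with
    | zero =>
      intro _
      have := hop h1 hs hT (Vx.t n 0 (y / 2 ^ (k n - 0))) (Vx.h n (y / 2 ^ k n) 0)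
        ((wup_t _ _ _ _ _ _ _ _).2 ⟨rfl, Nat.zero_le _, rfl⟩)
        ((wup_h _ _ _ _ _ _ _ _).2 ⟨rfl, rfl, lt_of_lt_of_le (by norm_num) (hm n)⟩)
        (by
          rw [nbx_t, if_pos (Nat.zero_le _), if_pos rfl, Nat.sub_zero]
          exact Finset.mem_insert_self _ _)
      rw [zero_add, pow_one]
      linarith
    | succ i ih =>
      intro hi
      have h3 := ih (by omega)
      have := hop h1 hs hT (Vx.t n (i + 1) (y / 2 ^ (k n - (i + 1)))) (Vx.t n i (y / 2 ^ (k n - i)))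
        ((wup_t _ _ _ _ _ _ _ _).2 ⟨rfl, hi, rfl⟩)
        ((wup_t _ _ _ _ _ _ _ _).2 ⟨rfl, by omega, rfl⟩)
        (by
          rw [nbx_t, if_pos hi, if_neg (Nat.succ_ne_zero i), Nat.add_sub_cancel,
            Nat.div_div_eq_div_mul, ← pow_succ]
          have : k n - (i + 1) + 1 = k n - i := by omega
          rw [this]
          exact Finset.mem_insert_self _ _)
      rw [pow_succ]
      linarith
  have e3 := e2 (k n) le_rfl
  rw [Nat.sub_self, pow_zero, Nat.div_one] at e3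
  have hl0 : 0 < l n := hl n
  have hp0 : Vx.p n 0 y ∈ Wup m k l n y := (wup_p _ _ _ _ _ _ _ _).2 ⟨rfl, hl0, rfl⟩
  have e4 := hop h1 hs hT (Vx.p n 0 y) (Vx.t n (k n) y) hp0
    ((wup_t _ _ _ _ _ _ _ _).2 ⟨rfl, le_rfl, by simp⟩)
    (by
      rw [nbx_p, if_pos hl0, if_pos rfl]
      exact Finset.mem_insert_self _ _)
  have e5 : (1 / 21 : ℝ) ^ (k n + 2) * (1 / 8) ≤ s {Vx.p n 0 y} := by
    have : (1 / 21 : ℝ) ^ (k n + 2) = (1 / 21 : ℝ) ^ (k n + 1) * (1 / 21) := pow_succ _ _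
    rw [this]
    linarith
  obtain ⟨hG, -, -, ho, -, -, -, -⟩ := HP lam (by linarith) h2 (l n) (hl n)
  have hB := HB m k l (fun n => le_trans (by norm_num) (hm n)) hl lam (by linarith) h2 n y
  have e6 := along (by linarith) hs (O1 l lam n y) (Vx.p n 0 y) hp0
    (by
      unfold O1 pre
      simp only [Finset.notMem_empty, Finset.filter_false]
      exact hG.empty)
    (fun A => ⟨(hB A).1.1, (hB A).1.2.1⟩)
    (fun A => ((hB A).2.2.2 (Wup m k l n y)
      (fun j hj => (wup_p _ _ _ _ _ _ _ _).2 ⟨rfl, hj, rfl⟩)).1)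
    {Vx.p n (l n - 1) y} (by
      rw [Finset.singleton_subset_iff]
      exact (wup_p _ _ _ _ _ _ _ _).2 ⟨rfl, by omega, rfl⟩)
  have e7 : O1 l lam n y {Vx.p n (l n - 1) y} = oo (l n) lam := by
    unfold O1 oo pre
    congr 1
    ext j
    simp only [Finset.mem_filter, Finset.mem_range, Finset.mem_singleton, Vx.p.injEq, true_and,
      and_true]
    constructor
    · rintro ⟨_, h⟩
      exact h
    · rintro rfl
      exact ⟨by omega, rfl⟩
  rw [e7] at e6
  refine le_trans ?_ e6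
  have e8 := mul_le_mul_of_nonneg_right e5 ho.le
  have e9 : oo (l n) lam / (24 * 21 ^ (k n + 2)) =
      (1 / 21 : ℝ) ^ (k n + 2) * (1 / 8) * oo (l n) lam / 3 := by
    rw [one_div_pow]
    field_simp
    norm_num
  rw [e9]
  linarith

theorem upw (HR : St_REGHIT) (HP : St_PATH) (HB : St_PB) (HS : St_SEQ) (HL : St_HLOW)
    (HV : St_VD) : St_UPW := by
  intro m k l hm hk hl lam h1 h2 n y u hu
  have hm0 : ∀ n, 0 < m n := fun n => lt_of_lt_of_le (by norm_num) (hm n)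
  have hl0 : 0 < l n := hl n
  have hlp : l n - 1 < l n := by omega
  have hJW : ∀ j ∈ Jup k n y, cl m j.1 j.2 ⊆ Wup m k l n y := by
    intro j hj
    unfold Jup at hj
    rw [Finset.mem_singleton] at hj
    subst hj
    intro z hz
    exact Finset.mem_union_right _ hz
  obtain ⟨s, hs, -⟩ := HR Vx (rest (nbx m k l) (Wup m k l n y)) lam (by linarith)
    (Wup m k l n y) (fun x _ => Finset.inter_subset_right) (Tgt m (Jup k n y))
    (fun A B hAB => tgt_mono m _ A B hAB) (tgt_empty m _)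
  have hs0 := s_up HP HB m k l hm hl lam h1 h2 n y s hs
  obtain ⟨-, -, -, ho, -, -, -, -⟩ := HP lam (by linarith) h2 (l n) (hl n)
  have hs1 : (0 : ℝ) < oo (l n) lam / (24 * 21 ^ (k n + 2)) := by positivity
  obtain ⟨v1, v2, v3, v4⟩ := HV m k l hm hl lam h1 h2 (Wup m k l n y) (Jup k n y) hJW (by
    intro n' y' i h
    rw [wup_h] at h
    obtain ⟨rfl, rfl, h3⟩ := h
    exact ⟨Finset.mem_singleton_self _, h3⟩)
  have hvK : Vx.h (n + 1) y 0 ∈ cl m (n + 1) y := (cl_h _ _ _ _ _ _).2 ⟨rfl, rfl, hm0 _⟩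
  have hwW : Vx.p n (l n - 1) y ∈ Wup m k l n y := (wup_p _ _ _ _ _ _ _ _).2 ⟨rfl, hlp, rfl⟩
  have hvw : Vx.h (n + 1) y 0 ∈ nbx m k l (Vx.p n (l n - 1) y) := by
    rw [nbx_p, if_pos hlp, if_neg (by omega : ¬ (l n - 1 + 1 < l n))]
    simp
  have hR : rest (rest (nbx m k l) (cl m (n + 1) y ∪ Wup m k l n y)) (Wup m k l n y) =
      rest (nbx m k l) (Wup m k l n y) := rest_rest _ _ _
  -- neighbours of a vertex in `W` which are in `K`
  have hnK : ∀ w ∈ Wup m k l n y, ∀ z ∈ nbx m k l w, z ∈ cl m (n + 1) y →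
      w = Vx.p n (l n - 1) y ∧ z = Vx.h (n + 1) y 0 := by
    intro w hw z hz hzK
    obtain ⟨i, hi, rfl⟩ := (mem_cl _ _ _ _).1 hzK
    cases w with
    | h n' y' i' =>
      obtain ⟨rfl, rfl, h3⟩ := (wup_h _ _ _ _ _ _ _ _).1 hw
      rw [nbx_h, if_pos h3, Finset.mem_union] at hz
      rcases hz with hz | hz
      · obtain ⟨a, _, h⟩ := Finset.mem_image.1 hz
        injection h with h1 h2 h3
        omega
      · split_ifs at hz
        · rw [Finset.mem_insert] at hz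
          rcases hz with hz | hz
          · cases hz
          · cases n' with
            | zero => simp [upv] at hz
            | succ n' => simp [upv] at hz
        · simp at hz
    | t n' i' y' =>
      obtain ⟨rfl, h2, h3⟩ := (wup_t _ _ _ _ _ _ _ _).1 hw
      rw [nbx_t, if_pos h2, Finset.mem_insert] at hz
      rcases hz with hz | hz
      · split_ifs at hz
        injection hz with h1 h2 h3
        omega
      · split_ifs at hz <;> simp at hz
    | p n' j' y' =>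
      obtain ⟨rfl, h2, rfl⟩ := (wup_p _ _ _ _ _ _ _ _).1 hw
      rw [nbx_p, if_pos h2, Finset.mem_insert, Finset.mem_singleton] at hz
      rcases hz with hz | hz
      · split_ifs at hz
      · split_ifs at hz with h5
        have : j' = l n' - 1 := by omega
        subst this
        exact ⟨rfl, hz⟩
  have hdis : Disjoint (cl m (n + 1) y) (Wup m k l n y) := by
    rw [Finset.disjoint_left]
    intro z hz hz2
    obtain ⟨i, hi, rfl⟩ := (mem_cl _ _ _ _).1 hz
    have := ((wup_h _ _ _ _ _ _ _ _).1 hz2).1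
    omega
  -- neighbours of the vertices of `K`
  have hKnb : ∀ i, i < m (n + 1) →
      ((Finset.range (m (n + 1))).erase i).image (Vx.h (n + 1) y) =
        (cl m (n + 1) y).erase (Vx.h (n + 1) y i) := by
    intro i hi
    unfold cl
    refine Finset.image_erase ?_ _ _
    intro a b h
    simpa using h
  obtain ⟨c1, c2⟩ := HL Vx (rest (nbx m k l) (cl m (n + 1) y ∪ Wup m k l n y)) lam h1 h2
    (cl m (n + 1) y) (Wup m k l n y) (Vx.h (n + 1) y 0) (Vx.p n (l n - 1) y)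
    (by rw [card_cl]; exact le_trans (by norm_num) (hm _)) hdis hvK hwW
    (by
      intro x hx hxv
      obtain ⟨i, hi, rfl⟩ := (mem_cl _ _ _ _).1 hx
      have hi0 : i ≠ 0 := by
        rintro rfl
        exact hxv rfl
      unfold rest
      rw [nbx_h, if_pos hi, if_neg hi0, Finset.union_empty, hKnb i hi]
      refine Finset.inter_eq_left.2 ?_
      exact (Finset.erase_subset _ _).trans Finset.subset_union_left)
    (by
      unfold rest
      rw [nbx_h, if_pos (hm0 _), if_pos rfl, hKnb 0 (hm0 _)]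
      ext z
      simp only [Finset.mem_inter, Finset.mem_union, Finset.mem_insert, Finset.mem_erase, upv,
        Finset.mem_singleton]
      constructor
      · rintro ⟨h3 | (rfl | rfl), h4⟩
        · exact Or.inr h3
        · exfalso
          rcases h4 with h4 | h4
          · exact cl_t _ _ _ _ _ _ h4
          · have := ((wup_t _ _ _ _ _ _ _ _).1 h4).1
            omega
        · exact Or.inl rfl
      · rintro (rfl | h3)
        · exact ⟨Or.inr (Or.inr rfl), Or.inr hwW⟩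
        · exact ⟨Or.inl h3, Or.inl h3.2⟩)
    (by
      intro w hw hne z hz
      unfold rest at hz
      rw [Finset.mem_inter, Finset.mem_union] at hz
      rcases hz.2 with h3 | h3
      · exact absurd (hnK w hw z hz.1 h3).1 hne
      · exact h3)
    (by
      intro z hz
      unfold rest at hz
      rw [Finset.mem_inter, Finset.mem_union] at hz
      rcases hz.2 with h3 | h3
      · rw [(hnK _ hwW z hz.1 h3).2]
        exact Finset.mem_insert_self _ _
      · exact Finset.mem_insert_of_mem h3)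
    (Finset.mem_inter.2 ⟨hvw, Finset.mem_union_left _ hvK⟩)
    (Tgt m (Jup k n y)) (fun A B hAB => tgt_mono m _ A B hAB)
    (fun A hA => tgt_inter m _ _ A hJW hA) (tgt_empty m _) s (by rw [hR]; exact hs)
    (lt_of_lt_of_le hs1 hs0) (Vf m (Jup k n y)) v1 (fun A _ => v2 A) (fun A _ => v3 A _ rfl)
    (by rw [hR]; exact v4) u hu
  rw [card_cl] at c1
  obtain ⟨-, -, -, -, hTT, -, -, -, -, -, -⟩ := HS.1 lam (by linarith) (m (n + 1))
    (le_trans (by norm_num) (hm _))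
  refine ⟨?_, ?_⟩
  · intro A hA h4
    refine le_trans ?_ (c1 A hA h4)
    have hlam : 0 < lam := by linarith
    have key : 20 * (m (n + 1) : ℝ) / (lam ^ 2 * s {Vx.p n (l n - 1) y} * TT lam (m (n + 1))) ≤
        20 * (m (n + 1) : ℝ) * (24 * 21 ^ (k n + 2)) /
          (lam ^ 2 * oo (l n) lam * TT lam (m (n + 1))) := by
      have e : 20 * (m (n + 1) : ℝ) * (24 * 21 ^ (k n + 2)) /
          (lam ^ 2 * oo (l n) lam * TT lam (m (n + 1))) = 20 * (m (n + 1) : ℝ) /
          (lam ^ 2 * (oo (l n) lam / (24 * 21 ^ (k n + 2))) * TT lam (m (n + 1))) := by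
        field_simp
      rw [e]
      refine div_le_div_of_nonneg_left (by positivity) (by positivity) ?_
      gcongr
    linarith
  · intro A hA hne
    refine le_trans ?_ (c2 A hA hne)
    exact mul_le_mul_of_nonneg_left hs0 (by positivity)

end Pool.Agent.W565.CP
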