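import Pool.Agent.W565.CP.Upw

/-!
# Project CP: drift of the correction term (`St_VD`)
-/

set_option autoImplicit false
open scoped BigOperators ENNReal

namespace Pool.Agent.W565.CP

open Pool.Agent.W845.CP

theorem phi_zero : phi 0 = 0 := by simp [phi]

theorem phi_pos_eq {c : ℕ} (h : 1 ≤ c) : phi c = max 1 (5 - (c : ℝ)) := by
  unfold phi
  rw [if_neg (by omega)]

theorem phi_nonneg (c : ℕ) : 0 ≤ phi c := by
  rcases Nat.eq_zero_or_pos c with rfl | h
  · rw [phi_zero]
  · rw [phi_pos_eq h]
    exact le_trans zero_le_one (le_max_left _ _)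

theorem phi_le (c : ℕ) : phi c ≤ 4 * c := by
  rcases Nat.eq_zero_or_pos c with rfl | h
  · rw [phi_zero]; simp
  · rw [phi_pos_eq h]
    have : (1 : ℝ) ≤ c := by exact_mod_cast h
    exact max_le (by linarith) (by linarith)

theorem phi_succ (c : ℕ) : phi (c + 1) - phi c ≤ 4 := by
  rcases Nat.eq_zero_or_pos c with rfl | h
  · rw [phi_zero, phi_pos_eq (by norm_num)]
    have : max (1 : ℝ) (5 - ((0 + 1 : ℕ) : ℝ)) ≤ 4 := max_le (by norm_num) (by norm_num)
    linarith
  · rw [phi_pos_eq h, phi_pos_eq (by omega)]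
    have : max (1 : ℝ) (5 - ((c + 1 : ℕ) : ℝ)) ≤ max 1 (5 - (c : ℝ)) :=
      max_le_max le_rfl (by push_cast; linarith)
    linarith

theorem phi_succ' {c : ℕ} (h : 1 ≤ c) (h3 : c ≤ 3) : phi (c + 1) - phi c = -1 := by
  rw [phi_pos_eq h, phi_pos_eq (by omega)]
  interval_cases c <;> norm_num

theorem phi_pred (c : ℕ) (h : 1 ≤ c) : phi (c - 1) - phi c ≤ 1 := by
  obtain ⟨d, rfl⟩ : ∃ d, c = d + 1 := ⟨c - 1, by omega⟩
  rw [Nat.add_sub_cancel]
  rcases Nat.eq_zero_or_pos d with rfl | h
  · rw [phi_zero]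
    have := phi_nonneg (0 + 1)
    linarith
  · rw [phi_pos_eq h, phi_pos_eq (by omega)]
    have : max (1 : ℝ) (5 - (d : ℝ)) ≤ max 1 (5 - ((d + 1 : ℕ) : ℝ)) + 1 := by
      refine max_le ?_ ?_
      · have := le_max_left (1 : ℝ) (5 - ((d + 1 : ℕ) : ℝ))
        linarith
      · have := le_max_right (1 : ℝ) (5 - ((d + 1 : ℕ) : ℝ))
        push_cast at this ⊢
        linarith
    linarith

theorem not_mem_cl_of_conn (m : ℕ → ℕ) (n x : ℕ) (w : Vx) (hw : isConn w = true) :
    w ∉ cl m n x := by
  cases w with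
  | h n' y' i => simp [isConn] at hw
  | t n' i y' => exact cl_t _ _ _ _ _ _
  | p n' i y' => exact cl_p _ _ _ _ _ _

/-- the hub part -/
noncomputable def PJ (m : ℕ → ℕ) (J : Finset (ℕ × ℕ)) (A : Finset Vx) : ℝ :=
  ∑ j ∈ J, phi (A ∩ cl m j.1 j.2).card

theorem Vf_eq (m : ℕ → ℕ) (J : Finset (ℕ × ℕ)) (A : Finset Vx) :
    Vf m J A = 4 * ((A.filter (fun v => isConn v = true)).card : ℝ) + PJ m J A := rfl

theorem PJ_diff (m : ℕ → ℕ) (J : Finset (ℕ × ℕ)) (A B : Finset Vx) (j0 : ℕ × ℕ) (h0 : j0 ∈ J)
    (h : ∀ j ∈ J, j ≠ j0 → B ∩ cl m j.1 j.2 = A ∩ cl m j.1 j.2) :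
    PJ m J B - PJ m J A = phi (B ∩ cl m j0.1 j0.2).card - phi (A ∩ cl m j0.1 j0.2).card := by
  unfold PJ
  rw [← Finset.add_sum_erase J _ h0, ← Finset.add_sum_erase J
    (fun j => phi (A ∩ cl m j.1 j.2).card) h0]
  have : ∑ j ∈ J.erase j0, phi (B ∩ cl m j.1 j.2).card =
      ∑ j ∈ J.erase j0, phi (A ∩ cl m j.1 j.2).card := by
    refine Finset.sum_congr rfl fun j hj => ?_
    rw [h j (Finset.mem_of_mem_erase hj) (Finset.ne_of_mem_erase hj)]
  rw [this]
  ring

theorem Vf_nonneg (m : ℕ → ℕ) (J : Finset (ℕ × ℕ)) (A : Finset Vx) : 0 ≤ Vf m J A := by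
  unfold Vf
  exact add_nonneg (by positivity) (Finset.sum_nonneg fun j _ => phi_nonneg _)

theorem PJ_insert_conn (m : ℕ → ℕ) (J : Finset (ℕ × ℕ)) (A : Finset Vx) (w : Vx)
    (hw : isConn w = true) : PJ m J (insert w A) = PJ m J A := by
  unfold PJ
  refine Finset.sum_congr rfl fun j _ => ?_
  rw [Finset.insert_inter_of_notMem (not_mem_cl_of_conn m _ _ w hw)]

theorem Vf_insert_conn (m : ℕ → ℕ) (J : Finset (ℕ × ℕ)) (A : Finset Vx) (w : Vx)
    (hw : isConn w = true) : Vf m J (insert w A) ≤ Vf m J A + 4 := by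
  rw [Vf_eq, Vf_eq, PJ_insert_conn m J A w hw]
  have : ((insert w A).filter (fun v => isConn v = true)).card ≤
      (A.filter (fun v => isConn v = true)).card + 1 := by
    rw [Finset.filter_insert, if_pos hw]
    exact Finset.card_insert_le _ _
  have : (((insert w A).filter (fun v => isConn v = true)).card : ℝ) ≤
      (A.filter (fun v => isConn v = true)).card + 1 := by exact_mod_cast this
  linarith

/-- insertion of a hub vertex -/
theorem Vf_insert_hub (m : ℕ → ℕ) (J : Finset (ℕ × ℕ)) (A : Finset Vx) (n y i : ℕ)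
    (hJ : (n, y) ∈ J) (hi : i < m n) (hA : Vx.h n y i ∉ A) :
    Vf m J (insert (Vx.h n y i) A) - Vf m J A =
      phi ((A ∩ cl m n y).card + 1) - phi (A ∩ cl m n y).card := by
  rw [Vf_eq, Vf_eq]
  have h1 : (insert (Vx.h n y i) A).filter (fun v => isConn v = true) =
      A.filter (fun v => isConn v = true) := by
    rw [Finset.filter_insert, if_neg (by simp [isConn])]
  have h2 := PJ_diff m J A (insert (Vx.h n y i) A) (n, y) hJ (by
    intro j _ hj
    rw [Finset.insert_inter_of_notMem]
    rw [cl_h]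
    rintro ⟨rfl, rfl, _⟩
    exact hj rfl)
  have h3 : (insert (Vx.h n y i) A ∩ cl m n y).card = (A ∩ cl m n y).card + 1 := by
    rw [Finset.insert_inter_of_mem ((cl_h _ _ _ _ _ _).2 ⟨rfl, rfl, hi⟩),
      Finset.card_insert_of_notMem]
    intro h
    exact hA (Finset.mem_inter.1 h).1
  rw [h1]
  simp only [h3] at h2
  linarith

/-- removal of a hub vertex -/
theorem Vf_erase_hub (m : ℕ → ℕ) (J : Finset (ℕ × ℕ)) (A : Finset Vx) (n y i : ℕ)
    (hJ : (n, y) ∈ J) (hi : i < m n) (hA : Vx.h n y i ∈ A) :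
    Vf m J (A.erase (Vx.h n y i)) - Vf m J A =
      phi ((A ∩ cl m n y).card - 1) - phi (A ∩ cl m n y).card := by
  rw [Vf_eq, Vf_eq]
  have h1 : (A.erase (Vx.h n y i)).filter (fun v => isConn v = true) =
      A.filter (fun v => isConn v = true) := by
    ext v
    simp only [Finset.mem_filter, Finset.mem_erase]
    constructor
    · rintro ⟨⟨_, h⟩, h'⟩
      exact ⟨h, h'⟩
    · rintro ⟨h, h'⟩
      refine ⟨⟨?_, h⟩, h'⟩
      rintro rfl
      simp [isConn] at h'
  have h2 := PJ_diff m J A (A.erase (Vx.h n y i)) (n, y) hJ (by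
    intro j _ hj
    rw [Finset.erase_inter]
    refine Finset.erase_eq_of_notMem ?_
    rw [Finset.mem_inter, cl_h]
    rintro ⟨_, rfl, rfl, _⟩
    exact hj rfl)
  have h3 : (A.erase (Vx.h n y i) ∩ cl m n y).card = (A ∩ cl m n y).card - 1 := by
    rw [Finset.erase_inter, Finset.card_erase_of_mem]
    exact Finset.mem_inter.2 ⟨hA, (cl_h _ _ _ _ _ _).2 ⟨rfl, rfl, hi⟩⟩
  rw [h1]
  simp only [h3] at h2
  linarith

theorem Vf_erase_conn (m : ℕ → ℕ) (J : Finset (ℕ × ℕ)) (A : Finset Vx) (w : Vx)
    (hw : isConn w = true) (hA : w ∈ A) : Vf m J (A.erase w) - Vf m J A = -4 := by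
  rw [Vf_eq, Vf_eq]
  have h1 : PJ m J (A.erase w) = PJ m J A := by
    unfold PJ
    refine Finset.sum_congr rfl fun j _ => ?_
    rw [Finset.erase_inter, Finset.erase_eq_of_notMem]
    intro h
    exact not_mem_cl_of_conn m _ _ w hw (Finset.mem_inter.1 h).2
  have h2 : ((A.erase w).filter (fun v => isConn v = true)).card + 1 =
      (A.filter (fun v => isConn v = true)).card := by
    rw [Finset.filter_erase]
    exact Finset.card_erase_add_one (Finset.mem_filter.2 ⟨hA, hw⟩)
  have h3 : (((A.erase w).filter (fun v => isConn v = true)).card : ℝ) + 1 =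
      (A.filter (fun v => isConn v = true)).card := by exact_mod_cast h2
  rw [h1]
  linarith

/-- `Vf A ≤ 4 |A|` -/
theorem Vf_le (m : ℕ → ℕ) (J : Finset (ℕ × ℕ)) (A : Finset Vx) : Vf m J A ≤ 4 * (A.card : ℝ) := by
  rw [Vf_eq]
  have h1 : PJ m J A ≤ 4 * ∑ j ∈ J, ((A ∩ cl m j.1 j.2).card : ℝ) := by
    unfold PJ
    rw [Finset.mul_sum]
    exact Finset.sum_le_sum fun j _ => phi_le _
  have h2 : ∑ j ∈ J, (A ∩ cl m j.1 j.2).card ≤ (A.filter (fun v => ¬ isConn v = true)).card := by
    have e : ∀ j ∈ J, (A ∩ cl m j.1 j.2).card = ∑ x ∈ A, if x ∈ cl m j.1 j.2 then 1 else 0 := by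
      intro j _
      rw [← Finset.card_filter, Finset.filter_mem_eq_inter]
    rw [Finset.sum_congr rfl e, Finset.sum_comm, Finset.card_filter]
    refine Finset.sum_le_sum fun x _ => ?_
    rw [← Finset.card_filter]
    by_cases hx : isConn x = true
    · rw [if_neg (not_not.2 hx), Finset.card_eq_zero.2]
      refine Finset.filter_false_of_mem fun j _ => not_mem_cl_of_conn m _ _ x hx
    · rw [if_pos hx, Finset.card_le_one]
      intro a ha b hb
      rw [Finset.mem_filter] at ha hb
      obtain ⟨i, _, h1⟩ := (mem_cl _ _ _ _).1 ha.2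
      rw [← h1] at hb
      obtain ⟨h2, h3, _⟩ := (cl_h _ _ _ _ _ _).1 hb.2
      exact Prod.ext h2 h3
  have h3 : ((∑ j ∈ J, (A ∩ cl m j.1 j.2).card : ℕ) : ℝ) ≤
      (A.filter (fun v => ¬ isConn v = true)).card := by exact_mod_cast h2
  push_cast at h3
  have h4 : ((A.filter (fun v => isConn v = true)).card : ℝ) +
      (A.filter (fun v => ¬ isConn v = true)).card = A.card := by
    exact_mod_cast Finset.card_filter_add_card_filter_not (s := A) (fun v => isConn v = true)
  linarith

theorem vd : St_VD := by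
  intro m k l hm hl lam h1 h2 W0 J hJ hW
  refine ⟨?_, Vf_nonneg m J, Vf_insert_conn m J, ?_⟩
  · simp [Vf, phi]
  intro A hA hne hT
  have hm0 : ∀ n, 0 < m n := fun n => lt_of_lt_of_le (by norm_num) (hm n)
  have hins : ∀ y ∈ W0, Vf m J (insert y A) - Vf m J A ≤ 4 := by
    intro y hy
    by_cases hyA : y ∈ A
    · rw [Finset.insert_eq_self.2 hyA]
      norm_num
    · cases y with
      | h n y i =>
        obtain ⟨h3, h4⟩ := hW n y i hy
        rw [Vf_insert_hub m J A n y i h3 h4 hyA]
        exact phi_succ _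
      | t n i y => linarith [Vf_insert_conn m J A (Vx.t n i y) rfl]
      | p n i y => linarith [Vf_insert_conn m J A (Vx.p n i y) rfl]
  have hgen : gen (rest (nbx m k l) W0) lam (Vf m J) A = ∑ x ∈ A, ((Vf m J (A.erase x) - Vf m J A) +
      lam * ∑ y ∈ rest (nbx m k l) W0 x, (Vf m J (insert y A) - Vf m J A)) := by
    unfold gen
    rw [Finset.sum_add_distrib, ← Finset.mul_sum]
  have hconn : ∀ x ∈ A, isConn x = true → (Vf m J (A.erase x) - Vf m J A) +
      lam * ∑ y ∈ rest (nbx m k l) W0 x, (Vf m J (insert y A) - Vf m J A) ≤ -(13 / 4) := by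
    intro x hx hc
    rw [Vf_erase_conn m J A x hc hx]
    have hcard : (rest (nbx m k l) W0 x).card ≤ 3 := by
      refine (Finset.card_le_card Finset.inter_subset_left).trans ?_
      have := card_nbx m k l (fun n => hm0 n) x
      cases x with
      | h n y i => simp [isConn] at hc
      | t n i y => exact this
      | p n i y => exact this
    have hs : ∑ y ∈ rest (nbx m k l) W0 x, (Vf m J (insert y A) - Vf m J A) ≤ 12 := by
      have := Finset.sum_le_card_nsmul (rest (nbx m k l) W0 x)
        (fun y => Vf m J (insert y A) - Vf m J A) 4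
        (fun y hy => hins y (Finset.mem_inter.1 hy).2)
      refine this.trans ?_
      rw [nsmul_eq_mul]
      have : ((rest (nbx m k l) W0 x).card : ℝ) ≤ 3 := by exact_mod_cast hcard
      linarith
    have h3 := mul_le_mul_of_nonneg_left hs (by linarith : 0 ≤ lam)
    linarith
  have hhub : ∀ x ∈ A, isConn x = false → (Vf m J (A.erase x) - Vf m J A) +
      lam * ∑ y ∈ rest (nbx m k l) W0 x, (Vf m J (insert y A) - Vf m J A) ≤ -(13 / 4) := by
    intro x hx hc
    cases x with
    | t n i y => simp [isConn] at hc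
    | p n i y => simp [isConn] at hc
    | h n y i =>
      obtain ⟨hj, hi⟩ := hW n y i (hA hx)
      have hxcl : Vx.h n y i ∈ cl m n y := (cl_h _ _ _ _ _ _).2 ⟨rfl, rfl, hi⟩
      have hcpos : 1 ≤ (A ∩ cl m n y).card :=
        Finset.card_pos.2 ⟨_, Finset.mem_inter.2 ⟨hx, hxcl⟩⟩
      have hc3 : (A ∩ cl m n y).card ≤ 3 := by
        by_contra hcon
        exact hT ⟨(n, y), hj, by
          show 4 ≤ (A ∩ cl m n y).card
          omega⟩
      rw [Vf_erase_hub m J A n y i hj hi hx]
      have hd := phi_pred _ hcpos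
      have hsum : ∑ z ∈ rest (nbx m k l) W0 (Vx.h n y i), (Vf m J (insert z A) - Vf m J A) ≤
          -189 := by
        have hsplit := Finset.sum_inter_add_sum_sdiff (rest (nbx m k l) W0 (Vx.h n y i))
          (cl m n y) (fun z => Vf m J (insert z A) - Vf m J A)
        rw [← hsplit]
        -- inside the hub
        have e1 : ∑ z ∈ rest (nbx m k l) W0 (Vx.h n y i) ∩ cl m n y,
            (Vf m J (insert z A) - Vf m J A) = ∑ z ∈ cl m n y \ A,
            (Vf m J (insert z A) - Vf m J A) := by
          symm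
          refine Finset.sum_subset ?_ ?_
          · intro z hz
            rw [Finset.mem_sdiff] at hz
            refine Finset.mem_inter.2 ⟨?_, hz.1⟩
            refine erase_sub m k l n y W0 (hJ _ hj) _ hxcl (Finset.mem_erase.2 ⟨?_, hz.1⟩)
            rintro rfl
            exact hz.2 hx
          · intro z hz hz2
            have hzA : z ∈ A := by
              by_contra hcon
              exact hz2 (Finset.mem_sdiff.2 ⟨(Finset.mem_inter.1 hz).2, hcon⟩)
            rw [Finset.insert_eq_self.2 hzA, sub_self]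
        have e2 : ∑ z ∈ cl m n y \ A, (Vf m J (insert z A) - Vf m J A) =
            -((cl m n y \ A).card : ℝ) := by
          have : ∀ z ∈ cl m n y \ A, Vf m J (insert z A) - Vf m J A = -1 := by
            intro z hz
            rw [Finset.mem_sdiff] at hz
            obtain ⟨i', hi', rfl⟩ := (mem_cl _ _ _ _).1 hz.1
            rw [Vf_insert_hub m J A n y i' hj hi' hz.2]
            exact phi_succ' hcpos hc3
          rw [Finset.sum_congr rfl this, Finset.sum_const, nsmul_eq_mul]
          ring
        have e3 : (197 : ℝ) ≤ ((cl m n y \ A).card : ℝ) := by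
          have h5 := Finset.card_sdiff_add_card_inter (cl m n y) A
          rw [Finset.inter_comm, card_cl] at h5
          have h6 := hm n
          have : 197 ≤ (cl m n y \ A).card := by omega
          exact_mod_cast this
        have e4 : ∑ z ∈ rest (nbx m k l) W0 (Vx.h n y i) \ cl m n y,
            (Vf m J (insert z A) - Vf m J A) ≤ 8 := by
          have hcard : (rest (nbx m k l) W0 (Vx.h n y i) \ cl m n y).card ≤ 2 := by
            have hsub : rest (nbx m k l) W0 (Vx.h n y i) \ cl m n y ⊆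
                insert (Vx.t n 0 y) (upv l n y) := by
              intro z hz
              rw [Finset.mem_sdiff] at hz
              have hz1 := (Finset.mem_inter.1 hz.1).1
              rw [nbx_h, if_pos hi, Finset.mem_union] at hz1
              rcases hz1 with hz1 | hz1
              · exfalso
                apply hz.2
                obtain ⟨a, ha, rfl⟩ := Finset.mem_image.1 hz1
                refine (cl_h _ _ _ _ _ _).2 ⟨rfl, rfl, ?_⟩
                exact Finset.mem_range.1 (Finset.mem_of_mem_erase ha)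
              · split_ifs at hz1
                · exact hz1
                · simp at hz1
            refine (Finset.card_le_card hsub).trans ?_
            refine (Finset.card_insert_le _ _).trans ?_
            cases n with
            | zero => simp [upv]
            | succ n => simp [upv]
          have := Finset.sum_le_card_nsmul (rest (nbx m k l) W0 (Vx.h n y i) \ cl m n y)
            (fun y => Vf m J (insert y A) - Vf m J A) 4
            (fun z hz => hins z (Finset.mem_inter.1 (Finset.mem_sdiff.1 hz).1).2)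
          refine this.trans ?_
          rw [nsmul_eq_mul]
          have : ((rest (nbx m k l) W0 (Vx.h n y i) \ cl m n y).card : ℝ) ≤ 2 := by
            exact_mod_cast hcard
          linarith
        rw [e1, e2]
        linarith
      nlinarith
  have hall : ∀ x ∈ A, (Vf m J (A.erase x) - Vf m J A) +
      lam * ∑ y ∈ rest (nbx m k l) W0 x, (Vf m J (insert y A) - Vf m J A) ≤ -(13 / 4) := by
    intro x hx
    cases hc : isConn x with
    | true => exact hconn x hx hc
    | false => exact hhub x hx hc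
  rw [hgen]
  have h3 := Finset.sum_le_card_nsmul A _ _ hall
  rw [nsmul_eq_mul] at h3
  have h4 := Vf_le m J A
  have h5 : (1 : ℝ) ≤ A.card := by
    exact_mod_cast Finset.card_pos.2 (Finset.nonempty_iff_ne_empty.2 hne)
  linarith

end Pool.Agent.W565.CP
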