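import Mathlib
import Pool.Agent.W275.CP.Stm
import Pool.Agent.W275.CP.Stm2
import Pool.Agent.W816.CP.Sieve

/-!
CP-SIEVE2: few values are divisible by the square of a prime not dividing the modulus.
Adapted from helper816's proof of CP-SIEVE and helper52's proof of CP-FAC.
-/

set_option autoImplicit false

namespace Pool.Agent.W565.CP.Sieve2

open Finset hiding val
open Pool.Agent.W275.CP Pool.Agent.W816.CP

/-- how the square of a large prime divides a value -/
theorem fac2 {j x q p : ℕ} (hj1 : 0 < j) (hj7 : j ≤ 7) (hq : 0 < q) (hp : p.Prime) (hp7 : 7 < p)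
    (h : 16 * j ^ 2 * q ^ 4 < x ^ 4) (hd : p ^ 2 ∣ Pool.Agent.W275.CP.val j x q) :
    (p ∣ q ∧ p ∣ x) ∨ (¬ p ∣ q ∧ p ≤ 2 * x ∧
      ((p : ℤ) ^ 2 ∣ (x : ℤ) ^ 2 - 4 * j * q ^ 2 ∨
       (p : ℤ) ^ 2 ∣ (x : ℤ) ^ 2 - (-(4 * j * q ^ 2)))) := by
  unfold Pool.Agent.W275.CP.val at hd
  rw [sq] at hd
  have hDx : x ^ 4 - 16 * j ^ 2 * q ^ 4 + 16 * j ^ 2 * q ^ 4 = x ^ 4 := Nat.sub_add_cancel h.le
  set D := x ^ 4 - 16 * j ^ 2 * q ^ 4 with hD
  have hpp : p ∣ p * p := dvd_mul_right p p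
  have hp2 : ¬ p ∣ 2 := fun h3 => by
    have := Nat.le_of_dvd (by norm_num) h3
    omega
  have hpj : ¬ p ∣ j := fun h3 => by
    have := Nat.le_of_dvd hj1 h3
    omega
  have hpD' : p * p ∣ D := by
    have hc : Nat.Coprime (p * p) j :=
      Nat.Coprime.mul_left ((Nat.Prime.coprime_iff_not_dvd hp).2 hpj)
        ((Nat.Prime.coprime_iff_not_dvd hp).2 hpj)
    exact hc.dvd_of_dvd_mul_left hd
  by_cases hpq : p ∣ q
  · left
    refine ⟨hpq, ?_⟩
    have h4 : p ∣ 16 * j ^ 2 * q ^ 4 := dvd_mul_of_dvd_right (dvd_pow hpq (by norm_num)) _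
    have h5 : p ∣ x ^ 4 := by rw [← hDx]; exact dvd_add (hpp.trans hpD') h4
    exact hp.dvd_of_dvd_pow h5
  · right
    refine ⟨hpq, ?_⟩
    have hpZ : Prime (p : ℤ) := Nat.prime_iff_prime_int.1 hp
    have hDZ : (D : ℤ) = ((x : ℤ) ^ 2 - 4 * j * q ^ 2) * ((x : ℤ) ^ 2 + 4 * j * q ^ 2) := by
      have h5 : ((D + 16 * j ^ 2 * q ^ 4 : ℕ) : ℤ) = ((x ^ 4 : ℕ) : ℤ) := by rw [hDx]
      push_cast at h5
      linear_combination h5
    have hpDZ : (p : ℤ) ^ 2 ∣ ((x : ℤ) ^ 2 - 4 * j * q ^ 2) * ((x : ℤ) ^ 2 + 4 * j * q ^ 2) := by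
      rw [← hDZ, sq]
      exact_mod_cast hpD'
    have hpos : (4 * j * q ^ 2 : ℤ) < (x : ℤ) ^ 2 := by
      have h5 : (16 * j ^ 2 * q ^ 4 : ℤ) < (x : ℤ) ^ 4 := by exact_mod_cast h
      have h6 : (0 : ℤ) ≤ 4 * j * q ^ 2 := by positivity
      nlinarith [sq_nonneg (x : ℤ)]
    have hqpos : (0 : ℤ) < 4 * j * q ^ 2 := by
      have h5 : (0 : ℤ) < j := by exact_mod_cast hj1
      have h6 : (0 : ℤ) < q := by exact_mod_cast hq
      positivity
    have hor : (p : ℤ) ^ 2 ∣ ((x : ℤ) ^ 2 - 4 * j * q ^ 2) ∨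
        (p : ℤ) ^ 2 ∣ ((x : ℤ) ^ 2 + 4 * j * q ^ 2) := by
      by_cases hA : (p : ℤ) ∣ ((x : ℤ) ^ 2 - 4 * j * q ^ 2)
      · left
        have hB : ¬ (p : ℤ) ∣ ((x : ℤ) ^ 2 + 4 * j * q ^ 2) := by
          intro hB
          have h7 : (p : ℤ) ∣ ((8 * j * q ^ 2 : ℕ) : ℤ) := by
            have h8 := dvd_sub hB hA
            have h9 : ((x : ℤ) ^ 2 + 4 * j * q ^ 2) - ((x : ℤ) ^ 2 - 4 * j * q ^ 2) =
                ((8 * j * q ^ 2 : ℕ) : ℤ) := by
              push_cast
              ring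
            rwa [h9] at h8
          have h8 : p ∣ 8 * j * q ^ 2 := Int.natCast_dvd_natCast.1 h7
          rcases (Nat.Prime.dvd_mul hp).1 h8 with h9 | h9
          · rcases (Nat.Prime.dvd_mul hp).1 h9 with h10 | h10
            · apply hp2
              have : (8 : ℕ) = 2 ^ 3 := by norm_num
              rw [this] at h10
              exact hp.dvd_of_dvd_pow h10
            · exact hpj h10
          · exact hpq (hp.dvd_of_dvd_pow h9)
        have hc : IsCoprime ((p : ℤ) ^ 2) ((x : ℤ) ^ 2 + 4 * j * q ^ 2) :=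
          IsCoprime.pow_left ((Prime.coprime_iff_not_dvd hpZ).2 hB)
        exact hc.dvd_of_dvd_mul_right hpDZ
      · right
        have hc : IsCoprime ((p : ℤ) ^ 2) ((x : ℤ) ^ 2 - 4 * j * q ^ 2) :=
          IsCoprime.pow_left ((Prime.coprime_iff_not_dvd hpZ).2 hA)
        exact hc.dvd_of_dvd_mul_left hpDZ
    have hle : (p : ℤ) ^ 2 ≤ (x : ℤ) ^ 2 + 4 * j * q ^ 2 := by
      rcases hor with h5 | h5
      · have := Int.le_of_dvd (by linarith) h5
        linarith
      · exact Int.le_of_dvd (by positivity) h5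
    have hp2x : p ≤ 2 * x := by
      have h5 : (p : ℤ) ^ 2 ≤ (2 * (x : ℤ)) ^ 2 := by nlinarith [sq_nonneg (x : ℤ)]
      have h6 : (p : ℤ) ≤ 2 * (x : ℤ) := by
        have h7 : (0 : ℤ) ≤ 2 * (x : ℤ) := by positivity
        exact le_of_sq_le_sq h5 h7
      exact_mod_cast h6
    refine ⟨hp2x, ?_⟩
    rcases hor with h5 | h5
    · left; exact h5
    · right
      rw [sub_neg_eq_add]
      exact h5

theorem main (hq2 : S_quad) (hl2 : S_lin) : S_sieve2 := by
  classical
  intro j hj η hη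
  refine ⟨max 7 ⌈32 / η⌉₊, fun K hK M r hMpos hMp δ hδ => ?_⟩
  have hj1 : 0 < j ∧ j ≤ 7 := by
    unfold J at hj
    simp only [mem_insert, mem_singleton] at hj
    omega
  have hK7 : 7 ≤ K := (le_max_left _ _).trans hK
  have hK0 : (0:ℝ) < K := by exact_mod_cast (by omega : 0 < K)
  have hKη : 32 / η ≤ (K:ℝ) := (Nat.le_ceil _).trans (by exact_mod_cast (le_max_right _ _).trans hK)
  rw [div_le_iff₀ hη] at hKη
  have hM0 : (0:ℝ) < M := by exact_mod_cast hMpos
  have hM1 : (1:ℝ) ≤ M := by exact_mod_cast hMpos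
  set C : ℝ := (r : ℝ) + M * (1 + δ) with hC
  have hC1 : 1 ≤ C := by
    have : (0:ℝ) ≤ r := by positivity
    nlinarith
  obtain ⟨t₀, ht₀⟩ := primeCounting_le_mul (η * δ / (128 * C)) (by positivity)
  obtain ⟨y₀, hy₀, hlog⟩ := log_small (show 0 < η / 8 * δ by positivity)
    (η / 8 + 1 / Real.log 2 * Real.log M) (1 / Real.log 2)
  refine ⟨max (max 1 t₀) (max ⌈y₀⌉₊ ⌈2 / δ⌉₊), fun Y hY q hq hw hlt => ?_⟩
  have hY1 : 1 ≤ Y := ((le_max_left _ _).trans (le_max_left _ _)).trans hY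
  have hYt : t₀ ≤ Y := ((le_max_right _ _).trans (le_max_left _ _)).trans hY
  have hYy : y₀ ≤ (Y:ℝ) := (Nat.le_ceil _).trans
    (by exact_mod_cast ((le_max_left _ _).trans (le_max_right _ _)).trans hY)
  have hYd : 2 / δ ≤ (Y:ℝ) := (Nat.le_ceil _).trans
    (by exact_mod_cast ((le_max_right _ _).trans (le_max_right _ _)).trans hY)
  rw [div_le_iff₀ hδ] at hYd
  have hY0 : (1:ℝ) ≤ Y := by exact_mod_cast hY1
  set n := ⌊δ * Y⌋₊ with hn
  have hnu : (n:ℝ) ≤ δ * Y := Nat.floor_le (by positivity)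
  have hnl : δ * Y < n + 1 := Nat.lt_floor_add_one _
  have hxu : ∀ y ∈ Ico Y (Y + n), ((r + M * y : ℕ) : ℝ) ≤ C * Y := by
    intro y hy
    rw [mem_Ico] at hy
    have h1 : (y:ℝ) ≤ (1 + δ) * Y := by
      have : (y:ℝ) ≤ (Y:ℝ) + n := by exact_mod_cast hy.2.le
      linarith
    push_cast
    have h2 : (0:ℝ) ≤ r := by positivity
    have h3 : (M:ℝ) * y ≤ M * ((1 + δ) * Y) := mul_le_mul_of_nonneg_left h1 hM0.le
    have h4 : (r : ℝ) ≤ r * Y := le_mul_of_one_le_right h2 hY0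
    rw [hC]
    linarith
  have hxl : ∀ y ∈ Ico Y (Y + n), M * Y ≤ r + M * y := by
    intro y hy
    rw [mem_Ico] at hy
    have h1 : M * Y ≤ M * y := Nat.mul_le_mul_left M hy.1
    exact h1.trans (Nat.le_add_left _ _)
  set T := ⌊2 * (C * Y)⌋₊ with hT
  set P1 := (q.primeFactors.filter (fun p => K < p)).filter (fun p => ¬ p ∣ M) with hP1
  set P2 := (Ioc K T).filter (fun p => p.Prime ∧ ¬ p ∣ q ∧ ¬ p ∣ M) with hP2
  set L : ℕ → Finset ℕ := fun p => (Ico Y (Y + n)).filter fun y => p ∣ r + M * y with hL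
  set Qe : ℤ → ℕ → Finset ℕ := fun e p => (Ico Y (Y + n)).filter
    fun y => ((p : ℤ) ^ 2 ∣ (((r + M * y : ℕ) : ℤ)) ^ 2 - e) with hQe
  have hsub : (Ico Y (Y + n)).filter (fun y => ∃ p : ℕ, p.Prime ∧ ¬ p ∣ M ∧
      p ^ 2 ∣ Pool.Agent.W275.CP.val j (r + M * y) q) ⊆
      P1.biUnion L ∪ P2.biUnion (fun p => Qe (4 * j * q ^ 2) p ∪ Qe (-(4 * j * q ^ 2)) p) := by
    intro y hy
    rw [mem_filter] at hy
    have h16 : 16 * j ^ 2 * q ^ 4 < (r + M * y) ^ 4 :=
      lt_of_lt_of_le hlt (Nat.pow_le_pow_left (hxl y hy.1) 4)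
    obtain ⟨p, hp, hpM, hdv⟩ := hy.2
    have hKp : K < p := by
      by_contra hcon
      exact hpM (hMp p hp (not_lt.1 hcon))
    have h := fac2 hj1.1 hj1.2 hq hp (by omega) h16 hdv
    rw [mem_union, mem_biUnion, mem_biUnion]
    rcases h with ⟨h1, h2⟩ | ⟨h1, h2, h3⟩
    · left
      refine ⟨p, ?_, ?_⟩
      · rw [hP1, mem_filter, mem_filter, Nat.mem_primeFactors]
        exact ⟨⟨⟨hp, h1, hq.ne'⟩, hKp⟩, hpM⟩
      · simp only [hL]
        rw [mem_filter]
        exact ⟨hy.1, h2⟩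
    · right
      refine ⟨p, ?_, ?_⟩
      · rw [hP2, mem_filter, mem_Ioc]
        refine ⟨⟨hKp, ?_⟩, hp, h1, hpM⟩
        apply Nat.le_floor
        have h4 : (p:ℝ) ≤ 2 * ((r + M * y : ℕ) : ℝ) := by exact_mod_cast h2
        have h5 := hxu y hy.1
        linarith
      · rw [mem_union]
        rcases h3 with h3 | h3
        · left
          simp only [hQe]
          rw [mem_filter]
          exact ⟨hy.1, h3⟩
        · right
          simp only [hQe]
          rw [mem_filter]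
          exact ⟨hy.1, h3⟩
  have hc1 : ((Ico Y (Y + n)).filter (fun y => ∃ p : ℕ, p.Prime ∧ ¬ p ∣ M ∧
      p ^ 2 ∣ Pool.Agent.W275.CP.val j (r + M * y) q)).card ≤
      ∑ p ∈ P1, (n / p + 1) + ∑ p ∈ P2, (2 * (n / p ^ 2 + 1) + 2 * (n / p ^ 2 + 1)) := by
    refine (card_le_card hsub).trans ((card_union_le _ _).trans ?_)
    apply Nat.add_le_add
    · refine card_biUnion_le.trans (sum_le_sum (fun p hp => ?_))
      rw [hP1, mem_filter, mem_filter, Nat.mem_primeFactors] at hp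
      exact hl2 p M r Y n hp.1.1.1 hp.2
    · refine card_biUnion_le.trans (sum_le_sum (fun p hp => ?_))
      rw [hP2, mem_filter, mem_Ioc] at hp
      obtain ⟨⟨hKp, _⟩, hpp, hpq, hpM⟩ := hp
      have hp2 : p ≠ 2 := by omega
      have he : ¬ (p:ℤ) ∣ 4 * j * q ^ 2 := by
        intro h
        have h1 : p ∣ 4 * j * q ^ 2 := by exact_mod_cast h
        rcases hpp.dvd_mul.1 h1 with h2 | h2
        · rcases hpp.dvd_mul.1 h2 with h3 | h3
          · have := Nat.le_of_dvd (by norm_num) h3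
            omega
          · have := Nat.le_of_dvd hj1.1 h3
            omega
        · exact hpq (hpp.dvd_of_dvd_pow h2)
      refine (card_union_le _ _).trans (Nat.add_le_add ?_ ?_)
      · exact hq2 p M r Y n _ hpp hp2 hpM he
      · exact hq2 p M r Y n _ hpp hp2 hpM (by rwa [dvd_neg])
  -- real bounds
  have hn0 : (0:ℝ) ≤ n := by positivity
  have b1 : ((∑ p ∈ P1, (n / p + 1) : ℕ) : ℝ) ≤ n * w K q + q.primeFactors.card := by
    push_cast
    calc ∑ p ∈ P1, (((n / p : ℕ) : ℝ) + 1) ≤ ∑ p ∈ P1, ((n:ℝ) * (1 / p) + 1) := by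
          apply sum_le_sum
          intro p _
          have := Nat.cast_div_le (α := ℝ) (m := n) (n := p)
          rw [div_eq_mul_one_div] at this
          linarith
      _ = n * (∑ p ∈ P1, (1 : ℝ) / p) + P1.card := by
          rw [sum_add_distrib, ← mul_sum, sum_const, nsmul_eq_mul, mul_one]
      _ ≤ n * w K q + q.primeFactors.card := by
          have h1 : (P1.card : ℝ) ≤ q.primeFactors.card := by
            exact_mod_cast card_le_card ((filter_subset _ _).trans (filter_subset _ _))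
          have h2 : ∑ p ∈ P1, (1 : ℝ) / p ≤ w K q := by
            unfold w
            apply sum_le_sum_of_subset_of_nonneg (filter_subset _ _)
            intro m _ _
            positivity
          have h3 := mul_le_mul_of_nonneg_left h2 hn0
          linarith
  have b2 : ((∑ p ∈ P2, (2 * (n / p ^ 2 + 1) + 2 * (n / p ^ 2 + 1)) : ℕ) : ℝ) ≤
      4 * n / K + 4 * Nat.primeCounting T := by
    push_cast
    calc ∑ p ∈ P2, (2 * (((n / p ^ 2 : ℕ) : ℝ) + 1) + 2 * (((n / p ^ 2 : ℕ) : ℝ) + 1))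
        ≤ ∑ p ∈ P2, (4 * n * ((p:ℝ) ^ 2)⁻¹ + 4) := by
          apply sum_le_sum
          intro p _
          have := Nat.cast_div_le (α := ℝ) (m := n) (n := p ^ 2)
          push_cast at this
          rw [div_eq_mul_inv] at this
          linarith
      _ = 4 * n * ∑ p ∈ P2, ((p:ℝ) ^ 2)⁻¹ + 4 * P2.card := by
          rw [sum_add_distrib, ← mul_sum, sum_const, nsmul_eq_mul]
          ring
      _ ≤ 4 * n * (K:ℝ)⁻¹ + 4 * Nat.primeCounting T := by
          apply add_le_add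
          · apply mul_le_mul_of_nonneg_left _ (by positivity)
            have h1 : ∑ p ∈ P2, ((p:ℝ) ^ 2)⁻¹ ≤ ∑ p ∈ Ioc K T, ((p:ℝ) ^ 2)⁻¹ := by
              apply sum_le_sum_of_subset_of_nonneg (filter_subset _ _)
              intro m _ _
              positivity
            refine h1.trans ?_
            by_cases hKU : K ≤ T
            · have := sum_Ioc_inv_sq_le_sub (α := ℝ) (k := K) (n := T) (by omega) hKU
              have h0 : (0:ℝ) ≤ (T:ℝ)⁻¹ := by positivity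
              linarith
            · rw [Ioc_eq_empty (by omega), sum_empty]
              positivity
          · have : P2.card ≤ Nat.primeCounting T := by
              rw [Nat.primeCounting, Nat.primeCounting', Nat.count_eq_card_filter_range]
              apply card_le_card
              intro p hp
              rw [hP2, mem_filter, mem_Ioc] at hp
              rw [mem_filter, mem_range]
              exact ⟨by omega, hp.2.1⟩
            have : (P2.card : ℝ) ≤ Nat.primeCounting T := by exact_mod_cast this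
            linarith
      _ = 4 * n / K + 4 * Nat.primeCounting T := by rw [div_eq_mul_inv]
  have hTY : Y ≤ T := by
    apply Nat.le_floor
    nlinarith
  have b3 := ht₀ T (hYt.trans hTY)
  have hTu : (T:ℝ) ≤ 2 * (C * Y) := Nat.floor_le (by positivity)
  have b4 : 4 * (Nat.primeCounting T : ℝ) ≤ η / 16 * (δ * Y) := by
    have h1 : η * δ / (128 * C) * T ≤ η * δ / (128 * C) * (2 * (C * Y)) :=
      mul_le_mul_of_nonneg_left hTu (by positivity)
    have h2 : 4 * (η * δ / (128 * C) * (2 * (C * Y))) = η / 16 * (δ * Y) := by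
      field_simp
      ring
    linarith
  have hqM : (q:ℝ) ≤ M * Y := by
    have h1 : q ^ 4 < (M * Y) ^ 4 := by
      refine lt_of_le_of_lt ?_ hlt
      have : 1 ≤ 16 * j ^ 2 := by
        have := Nat.pow_le_pow_left hj1.1 2
        nlinarith
      exact Nat.le_mul_of_pos_left _ this
    have h2 : q < M * Y := lt_of_pow_lt_pow_left₀ 4 (Nat.zero_le _) h1
    exact_mod_cast h2.le
  have b5 : (q.primeFactors.card : ℝ) ≤ η / 8 * (δ * Y) - η / 8 := by
    have h1 := card_pf hq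
    have hq0 : (0:ℝ) < q := by exact_mod_cast hq
    have h2 : Real.log q ≤ Real.log M + Real.log Y := by
      rw [← Real.log_mul hM0.ne' (by linarith)]
      exact Real.log_le_log hq0 hqM
    have h3 := hlog Y hYy
    have h4 : 0 < 1 / Real.log 2 := by
      have : 0 < Real.log 2 := Real.log_pos (by norm_num)
      positivity
    have h5 := mul_le_mul_of_nonneg_left h2 h4.le
    rw [mul_add] at h5
    have h6 : η / 8 * δ * (Y:ℝ) = η / 8 * (δ * Y) := by ring
    linarith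
  have b6 : 4 * (n:ℝ) / K ≤ η / 8 * n := by
    rw [div_le_iff₀ hK0]
    have h1 := mul_le_mul_of_nonneg_left hKη hn0
    have h2 : η / 8 * n * K = n * (K * η) / 8 := by ring
    rw [h2]
    linarith
  have b7 : (n:ℝ) * w K q ≤ η / 8 * n := by
    rw [mul_comm (η / 8)]
    exact mul_le_mul_of_nonneg_left hw hn0
  have hfin : (((Ico Y (Y + n)).filter (fun y => ∃ p : ℕ, p.Prime ∧ ¬ p ∣ M ∧
      p ^ 2 ∣ Pool.Agent.W275.CP.val j (r + M * y) q)).card : ℝ) ≤
      ((∑ p ∈ P1, (n / p + 1) + ∑ p ∈ P2, (2 * (n / p ^ 2 + 1) + 2 * (n / p ^ 2 + 1)) : ℕ) : ℝ) := by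
    exact_mod_cast hc1
  rw [Nat.cast_add] at hfin
  have h8 : δ * Y ≤ n + 1 := hnl.le
  have h9 : η / 8 * (δ * Y) ≤ η / 8 * (n + 1) := mul_le_mul_of_nonneg_left h8 (by positivity)
  have h10 : η * 2 ≤ η * (Y * δ) := mul_le_mul_of_nonneg_left hYd hη.le
  rw [mul_add, mul_one] at h9
  have h11 : η * (Y * δ) = η * (δ * Y) := by ring
  rw [h11] at h10
  have h12 : η / 16 * (δ * Y) = η * (δ * Y) / 16 := by ring
  have h13 : η / 8 * (δ * Y) = η * (δ * Y) / 8 := by ring
  have h14 : η / 8 * (n:ℝ) = η * n / 8 := by ring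
  have hgoal : (((Ico Y (Y + n)).filter (fun y => ∃ p : ℕ, p.Prime ∧ ¬ p ∣ M ∧
      p ^ 2 ∣ Pool.Agent.W275.CP.val j (r + M * y) q)).card : ℝ) ≤ η * n := by
    linarith
  convert hgoal

end Pool.Agent.W565.CP.Sieve2
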