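import Pool.Agent.W565.CP.Upw

/-!
# Project CP: symmetry, connectedness (`St_GRAPH`), transport to a subtype (`St_SUB`)
-/

set_option autoImplicit false
open scoped BigOperators ENNReal

namespace Pool.Agent.W565.CP

open Pool.Agent.W845.CP

theorem ok_h (m k l : ℕ → ℕ) (n y i : ℕ) :
    okv m k l (Vx.h n y i) ↔ i < m n ∧ y < 2 ^ lab k n := Iff.rfl
theorem ok_t (m k l : ℕ → ℕ) (n i y : ℕ) :
    okv m k l (Vx.t n i y) ↔ i ≤ k n ∧ y < 2 ^ (lab k n + i) := Iff.rfl
theorem ok_p (m k l : ℕ → ℕ) (n j y : ℕ) :
    okv m k l (Vx.p n j y) ↔ j < l n ∧ y < 2 ^ lab k (n + 1) := Iff.rfl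

theorem lab_succ (k : ℕ → ℕ) (n : ℕ) : lab k (n + 1) = lab k n + k n := by
  unfold lab
  rw [Finset.sum_range_succ]

theorem sym (m k l : ℕ → ℕ) (hm : ∀ n, 1 ≤ m n) (hl : ∀ n, 1 ≤ l n) (v w : Vx)
    (hv : okv m k l v) (hw : w ∈ nbx m k l v) :
    okv m k l w ∧ v ∈ nbx m k l w ∧ w ≠ v := by
  have hm0 : ∀ n, 0 < m n := fun n => hm n
  have hl0 : ∀ n, 0 < l n := fun n => hl n
  cases v with
  | h n y i =>
    rw [ok_h] at hv
    rw [nbx_h, if_pos hv.1, Finset.mem_union] at hw
    rcases hw with hw | hw
    · obtain ⟨j, hj, rfl⟩ := Finset.mem_image.1 hw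
      rw [Finset.mem_erase, Finset.mem_range] at hj
      refine ⟨⟨hj.2, hv.2⟩, ?_, ?_⟩
      · rw [nbx_h, if_pos hj.2]
        refine Finset.mem_union_left _ (Finset.mem_image.2 ⟨i, ?_, rfl⟩)
        rw [Finset.mem_erase, Finset.mem_range]
        exact ⟨fun h => hj.1 h.symm, hv.1⟩
      · intro h
        injection h with h1 h2 h3
        exact hj.1 h3
    · split_ifs at hw with hi
      · subst hi
        rw [Finset.mem_insert] at hw
        rcases hw with rfl | hw
        · refine ⟨⟨Nat.zero_le _, hv.2⟩, ?_, by simp⟩
          rw [nbx_t, if_pos (Nat.zero_le _), if_pos rfl]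
          exact Finset.mem_insert_self _ _
        · cases n with
          | zero => simp [upv] at hw
          | succ n =>
            simp only [upv, Finset.mem_singleton] at hw
            subst hw
            have hlp : l n - 1 < l n := by have := hl n; omega
            refine ⟨⟨hlp, hv.2⟩, ?_, by simp⟩
            rw [nbx_p, if_pos hlp, if_neg (by omega : ¬ (l n - 1 + 1 < l n))]
            simp
      · simp at hw
  | t n i y =>
    rw [ok_t] at hv
    rw [nbx_t, if_pos hv.1, Finset.mem_insert] at hw
    rcases hw with hw | hw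
    · split_ifs at hw with hi
      · subst hi hw
        refine ⟨⟨hm0 n, hv.2⟩, ?_, by simp⟩
        rw [nbx_h, if_pos (hm0 n), if_pos rfl]
        simp
      · subst hw
        have h2 : y / 2 < 2 ^ (lab k n + (i - 1)) := by
          have e : lab k n + i = lab k n + (i - 1) + 1 := by omega
          have := hv.2
          rw [e, pow_succ] at this
          omega
        refine ⟨⟨by omega, h2⟩, ?_, ?_⟩
        · rw [nbx_t, if_pos (by omega : i - 1 ≤ k n), if_pos (by omega : i - 1 < k n)]
          have e : i - 1 + 1 = i := by omega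
          rw [e]
          rcases Nat.even_or_odd' y with ⟨c, hc | hc⟩
          · have : 2 * (y / 2) = y := by omega
            rw [this]
            simp
          · have : 2 * (y / 2) + 1 = y := by omega
            rw [this]
            simp
        · intro h
          injection h with h1 h2 h3
          omega
    · split_ifs at hw with hi
      · rw [Finset.mem_insert, Finset.mem_singleton] at hw
        have hp : 2 ^ (lab k n + (i + 1)) = 2 * 2 ^ (lab k n + i) := by
          rw [← add_assoc, pow_succ]
          ring
        rcases hw with rfl | rfl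
        · refine ⟨⟨hi, by rw [hp]; omega⟩, ?_, ?_⟩
          · rw [nbx_t, if_pos (by omega : i + 1 ≤ k n), if_neg (Nat.succ_ne_zero i),
              Nat.add_sub_cancel]
            have : 2 * y / 2 = y := by omega
            rw [this]
            exact Finset.mem_insert_self _ _
          · intro h
            injection h with h1 h2 h3
            omega
        · refine ⟨⟨hi, by rw [hp]; omega⟩, ?_, ?_⟩
          · rw [nbx_t, if_pos (by omega : i + 1 ≤ k n), if_neg (Nat.succ_ne_zero i),
              Nat.add_sub_cancel]
            have : (2 * y + 1) / 2 = y := by omega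
            rw [this]
            exact Finset.mem_insert_self _ _
          · intro h
            injection h with h1 h2 h3
            omega
      · rw [Finset.mem_singleton] at hw
        subst hw
        have hik : i = k n := by omega
        subst hik
        refine ⟨⟨hl0 n, by rw [lab_succ]; exact hv.2⟩, ?_, by simp⟩
        rw [nbx_p, if_pos (hl0 n), if_pos rfl]
        exact Finset.mem_insert_self _ _
  | p n j y =>
    rw [ok_p] at hv
    rw [nbx_p, if_pos hv.1, Finset.mem_insert, Finset.mem_singleton] at hw
    rcases hw with hw | hw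
    · split_ifs at hw with hj
      · subst hj hw
        refine ⟨⟨le_rfl, by rw [← lab_succ]; exact hv.2⟩, ?_, by simp⟩
        rw [nbx_t, if_pos le_rfl, if_neg (lt_irrefl _)]
        simp
      · subst hw
        refine ⟨⟨by omega, hv.2⟩, ?_, ?_⟩
        · rw [nbx_p, if_pos (by omega : j - 1 < l n), if_pos (by omega : j - 1 + 1 < l n)]
          have e : j - 1 + 1 = j := by omega
          rw [e]
          simp
        · intro h
          injection h with h1 h2 h3
          omega
    · split_ifs at hw with hj
      · subst hw
        refine ⟨⟨hj, hv.2⟩, ?_, ?_⟩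
        · rw [nbx_p, if_pos hj, if_neg (Nat.succ_ne_zero j), Nat.add_sub_cancel]
          exact Finset.mem_insert_self _ _
        · intro h
          injection h with h1 h2 h3
          omega
      · subst hw
        refine ⟨⟨hm0 _, hv.2⟩, ?_, by simp⟩
        rw [nbx_h, if_pos (hm0 _), if_pos rfl]
        have e : l n - 1 = j := by omega
        simp [upv, e]

theorem graph : St_GRAPH := by
  intro m k l hm hl
  refine ⟨sym m k l hm hl, ?_⟩
  have hm0 : ∀ n, 0 < m n := fun n => hm n
  have hl0 : ∀ n, 0 < l n := fun n => hl n
  set E : Vx → Vx → Prop := fun a b => okv m k l a ∧ okv m k l b ∧ b ∈ nbx m k l a with hE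
  have hedge : ∀ a b, okv m k l a → b ∈ nbx m k l a → E a b := fun a b ha hb =>
    ⟨ha, (sym m k l hm hl a b ha hb).1, hb⟩
  -- one level, given the ports
  have hport : ∀ n, (∀ y, y < 2 ^ lab k n → Relation.ReflTransGen E (Vx.h n y 0) (Vx.h 0 0 0)) →
      (∀ i y, i ≤ k n → y < 2 ^ (lab k n + i) →
        Relation.ReflTransGen E (Vx.t n i y) (Vx.h 0 0 0)) ∧
      (∀ j y, j < l n → y < 2 ^ lab k (n + 1) →
        Relation.ReflTransGen E (Vx.p n j y) (Vx.h 0 0 0)) := by
    intro n hn
    have ht : ∀ i y, i ≤ k n → y < 2 ^ (lab k n + i) →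
        Relation.ReflTransGen E (Vx.t n i y) (Vx.h 0 0 0) := by
      intro i
      induction i with
      | zero =>
        intro y hi hy
        refine Relation.ReflTransGen.head (hedge _ (Vx.h n y 0) ⟨hi, hy⟩ ?_) (hn y hy)
        rw [nbx_t, if_pos hi, if_pos rfl]
        exact Finset.mem_insert_self _ _
      | succ i ih =>
        intro y hi hy
        have h2 : y / 2 < 2 ^ (lab k n + i) := by
          rw [← add_assoc, pow_succ] at hy
          omega
        refine Relation.ReflTransGen.head (hedge _ (Vx.t n i (y / 2)) ⟨hi, hy⟩ ?_)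
          (ih (y / 2) (by omega) h2)
        rw [nbx_t, if_pos hi, if_neg (Nat.succ_ne_zero i), Nat.add_sub_cancel]
        exact Finset.mem_insert_self _ _
    refine ⟨ht, ?_⟩
    intro j
    induction j with
    | zero =>
      intro y hj hy
      refine Relation.ReflTransGen.head (hedge _ (Vx.t n (k n) y) ⟨hj, hy⟩ ?_)
        (ht (k n) y le_rfl (by rw [← lab_succ]; exact hy))
      rw [nbx_p, if_pos hj, if_pos rfl]
      exact Finset.mem_insert_self _ _
    | succ j ih =>
      intro y hj hy
      refine Relation.ReflTransGen.head (hedge _ (Vx.p n j y) ⟨hj, hy⟩ ?_)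
        (ih y (by omega) hy)
      rw [nbx_p, if_pos hj, if_neg (Nat.succ_ne_zero j), Nat.add_sub_cancel]
      exact Finset.mem_insert_self _ _
  have hall : ∀ n, ∀ y, y < 2 ^ lab k n →
      Relation.ReflTransGen E (Vx.h n y 0) (Vx.h 0 0 0) := by
    intro n
    induction n with
    | zero =>
      intro y hy
      have : y = 0 := by
        have h0 : lab k 0 = 0 := by simp [lab]
        rw [h0, pow_zero] at hy
        omega
      subst this
      exact Relation.ReflTransGen.refl
    | succ n ih =>
      intro y hy
      have hlp : l n - 1 < l n := by have := hl n; omega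
      refine Relation.ReflTransGen.head (hedge _ (Vx.p n (l n - 1) y) ⟨hm0 _, hy⟩ ?_)
        ((hport n ih).2 _ y hlp hy)
      rw [nbx_h, if_pos (hm0 _), if_pos rfl]
      simp [upv]
  intro v hv
  cases v with
  | h n y i =>
    by_cases hi : i = 0
    · subst hi
      exact hall n y hv.2
    · refine Relation.ReflTransGen.head (hedge _ (Vx.h n y 0) hv ?_) (hall n y hv.2)
      rw [nbx_h, if_pos hv.1]
      refine Finset.mem_union_left _ (Finset.mem_image.2 ⟨0, ?_, rfl⟩)
      rw [Finset.mem_erase, Finset.mem_range]
      exact ⟨fun h => hi h.symm, hm0 n⟩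
  | t n i y => exact (hport n (hall n)).1 i y hv.1 hv.2
  | p n j y => exact (hport n (hall n)).2 j y hv.1 hv.2

theorem sub : St_SUB := by
  intro V _ P _ nb nb' hnb lam
  refine ⟨?_, ?_⟩
  · intro f A
    unfold up
    congr 1
    · rw [Finset.sum_map]
      refine Finset.sum_congr rfl fun x _ => ?_
      beta_reduce
      rw [Finset.map_erase]
    · congr 1
      rw [Finset.sum_map]
      refine Finset.sum_congr rfl fun x _ => ?_
      have e : nb ((Function.Embedding.subtype P) x) \ A.map (Function.Embedding.subtype P) =
          (nb' x \ A).map (Function.Embedding.subtype P) := by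
        rw [Finset.map_sdiff, hnb]
        rfl
      rw [e, Finset.sum_map]
      refine Finset.sum_congr rfl fun y _ => ?_
      beta_reduce
      rw [Finset.map_insert]
  · intro A
    unfold rate
    rw [Finset.card_map, Finset.sum_map]
    congr 2
    refine Finset.sum_congr rfl fun x _ => ?_
    have e : nb ((Function.Embedding.subtype P) x) \ A.map (Function.Embedding.subtype P) =
        (nb' x \ A).map (Function.Embedding.subtype P) := by
      rw [Finset.map_sdiff, hnb]
      rfl
    rw [e, Finset.card_map]

end Pool.Agent.W565.CP
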